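import Pool.Agent.N698.TP.Fields

set_option autoImplicit false

/-!
The number of the places above a finite set of places.
-/

namespace Pool.Agent.N698.TP

open NumberField IsDedekindDomain

variable {k L : Type} [Field k] [NumberField k] [Field L] [NumberField L] [Algebra k L]

/-- the primes above `S` -/
def above (S : Finset (HeightOneSpectrum (𝓞 k))) (L : Type) [Field L] [NumberField L]
    [Algebra k L] : Set (HeightOneSpectrum (𝓞 L)) :=
  {w | ∃ v ∈ S, w.asIdeal.LiesOver v.asIdeal}

theorem above_finite (S : Finset (HeightOneSpectrum (𝓞 k))) : (above S L).Finite := by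
  have h1 : above S L ⊆ ⋃ v ∈ S, {w | w.asIdeal.LiesOver v.asIdeal} := by
    rintro w ⟨v, hv, hw⟩
    simp only [Set.mem_iUnion]
    exact ⟨v, hv, hw⟩
  refine (S.finite_toSet.biUnion fun v _ => ?_).subset h1
  have h2 : (Ideal.primesOver v.asIdeal (𝓞 L)).Finite :=
    IsDedekindDomain.primesOver_finite v.asIdeal (𝓞 L)
  refine Set.Finite.of_finite_image (f := fun w : HeightOneSpectrum (𝓞 L) => w.asIdeal)
    (h2.subset ?_) (fun w _ w' _ h => HeightOneSpectrum.ext h)
  rintro _ ⟨w, hw, rfl⟩
  exact ⟨w.isPrime, hw⟩

/-- there is a prime above each prime -/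
theorem le_above (S : Finset (HeightOneSpectrum (𝓞 k))) : S.card ≤ (above S L).ncard := by
  classical
  have h1 : (S.image fun v => v.asIdeal).card = S.card :=
    Finset.card_image_of_injective _ fun v v' h => HeightOneSpectrum.ext h
  have h2 : ((S.image fun v => v.asIdeal : Finset (Ideal (𝓞 k))) : Set (Ideal (𝓞 k))) ⊆
      (fun w : HeightOneSpectrum (𝓞 L) => w.asIdeal.under (𝓞 k)) '' above S L := by
    intro I hI
    obtain ⟨v, hv, rfl⟩ := Finset.mem_image.1 (Finset.mem_coe.1 hI)
    have := v.isPrime
    obtain ⟨⟨P, hP1, hP2⟩⟩ := v.asIdeal.nonempty_primesOver (S := 𝓞 L)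
    have hne : P ≠ ⊥ := Ideal.ne_bot_of_liesOver_of_ne_bot v.ne_bot P
    exact ⟨⟨P, hP1, hne⟩, ⟨v, hv, hP2⟩, hP2.over.symm⟩
  rw [← h1, ← Set.ncard_coe_finset]
  exact (Set.ncard_le_ncard h2 ((above_finite S).image _)).trans
    (Set.ncard_image_le (above_finite S))

/-- for an extension of degree one there is only one prime above each prime -/
theorem above_le_of_one (hL : Module.finrank k L = 1) (S : Finset (HeightOneSpectrum (𝓞 k))) :
    (above S L).ncard ≤ S.card := by
  classical
  have hbij : Function.Bijective (algebraMap k L) := by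
    have h := finrank_eq_one_iff_of_nonzero' (K := k) (V := L) 1 one_ne_zero |>.1 hL
    refine ⟨(algebraMap k L).injective, fun y => ?_⟩
    obtain ⟨c, hc⟩ := h y
    exact ⟨c, by rw [← hc, Algebra.smul_def, mul_one]⟩
  have hsurj : Function.Surjective (algebraMap (𝓞 k) (𝓞 L)) := by
    intro y
    obtain ⟨x, hx⟩ := hbij.2 (y : L)
    have hint : IsIntegral ℤ x := by
      have h1 : IsIntegral ℤ (algebraMap k L x) := by
        rw [hx]; exact y.2
      exact (isIntegral_algebraMap_iff hbij.1).1 h1
    refine ⟨⟨x, hint⟩, ?_⟩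
    apply RingOfIntegers.ext
    exact hx
  have hinj : Function.Injective
      (fun w : HeightOneSpectrum (𝓞 L) => w.asIdeal.under (𝓞 k)) := by
    intro w w' h
    exact HeightOneSpectrum.ext (Ideal.comap_injective_of_surjective _ hsurj h)
  have h1 : (fun w : HeightOneSpectrum (𝓞 L) => w.asIdeal.under (𝓞 k)) '' above S L ⊆
      ((S.image fun v => v.asIdeal : Finset (Ideal (𝓞 k))) : Set (Ideal (𝓞 k))) := by
    rintro _ ⟨w, ⟨v, hv, hw⟩, rfl⟩
    rw [Finset.mem_coe, Finset.mem_image]
    exact ⟨v, hv, hw.over⟩
  rw [← Set.ncard_image_of_injective _ hinj]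
  refine (Set.ncard_le_ncard h1 (Finset.finite_toSet _)).trans ?_
  rw [Set.ncard_coe_finset]
  exact Finset.card_image_le

theorem card_inf_of_one (hL : Module.finrank k L = 1) :
    Fintype.card (InfinitePlace L) ≤ Fintype.card (InfinitePlace k) := by
  have hsurj : Function.Surjective (algebraMap k L) := by
    have h := finrank_eq_one_iff_of_nonzero' (K := k) (V := L) 1 one_ne_zero |>.1 hL
    intro y
    obtain ⟨c, hc⟩ := h y
    exact ⟨c, by rw [← hc, Algebra.smul_def, mul_one]⟩
  refine Fintype.card_le_of_injective (fun w : InfinitePlace L => w.comap (algebraMap k L)) ?_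
  intro w w' h
  refine DFunLike.ext _ _ fun y => ?_
  obtain ⟨x, rfl⟩ := hsurj y
  exact DFunLike.congr_fun h x

theorem card_inf_of_unique (hk : Fintype.card (InfinitePlace k) = 1) :
    Fintype.card (InfinitePlace L) ≤ Module.finrank k L := by
  obtain ⟨v, hv⟩ := Fintype.card_eq_one_iff.1 hk
  have h1 : Module.finrank ℚ k = v.mult := by
    rw [← InfinitePlace.sum_mult_eq (K := k)]
    rw [Finset.sum_eq_single v (fun b _ hb => absurd (hv b) hb)
      (fun h => absurd (Finset.mem_univ v) h)]
  have h2 : Fintype.card (InfinitePlace L) * v.mult ≤ Module.finrank ℚ L := by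
    rw [← InfinitePlace.sum_mult_eq (K := L), ← smul_eq_mul, ← Finset.card_univ,
      ← Finset.sum_const]
    refine Finset.sum_le_sum fun w _ => ?_
    have := InfinitePlace.mult_comap_le (algebraMap k L) w
    rw [hv (w.comap (algebraMap k L))] at this
    exact this
  have h3 : Module.finrank ℚ k * Module.finrank k L = Module.finrank ℚ L :=
    Module.finrank_mul_finrank ℚ k L
  rw [← h3, h1, mul_comm] at h2
  exact Nat.le_of_mul_le_mul_left h2 v.mult_pos

theorem finrank_le_two (hk : Fintype.card (InfinitePlace k) = 1) : Module.finrank ℚ k ≤ 2 := by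
  obtain ⟨v, hv⟩ := Fintype.card_eq_one_iff.1 hk
  have h1 : Module.finrank ℚ k = v.mult := by
    rw [← InfinitePlace.sum_mult_eq (K := k)]
    rw [Finset.sum_eq_single v (fun b _ hb => absurd (hv b) hb)
      (fun h => absurd (Finset.mem_univ v) h)]
  rw [h1]
  unfold InfinitePlace.mult
  split_ifs <;> norm_num

/-- the number of the places of `L` above `S` and the infinite places -/
noncomputable def numPl (S : Finset (HeightOneSpectrum (𝓞 k))) (L : Type) [Field L]
    [NumberField L] [Algebra k L] : ℕ :=
  Fintype.card (InfinitePlace L) + (above S L).ncard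

theorem numPl_le_two {r : ℕ} (S : Finset (HeightOneSpectrum (𝓞 k)))
    (h : r * (Fintype.card (InfinitePlace k) + S.card) ≤ 2) (hL : Module.finrank k L ≤ r) :
    numPl S L ≤ 2 := by
  have hpos : 0 < Module.finrank k L := Module.finrank_pos
  have ha : 1 ≤ Fintype.card (InfinitePlace k) := Fintype.card_pos
  unfold numPl
  by_cases h1 : Module.finrank k L = 1
  · have h2 := card_inf_of_one h1
    have h3 := above_le_of_one h1 S
    nlinarith
  · have hr : 2 ≤ r := by omega
    have h4 : 2 * (Fintype.card (InfinitePlace k) + S.card) ≤ 2 :=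
      (Nat.mul_le_mul_right _ hr).trans h
    have h5 : Fintype.card (InfinitePlace k) = 1 := by omega
    have h6 : S.card = 0 := by omega
    have h7 : S = ∅ := Finset.card_eq_zero.1 h6
    have h8 : (above S L).ncard = 0 := by
      rw [h7]
      have : above (∅ : Finset (HeightOneSpectrum (𝓞 k))) L = ∅ := by
        ext w
        simp [above]
      rw [this, Set.ncard_empty]
    have h9 := card_inf_of_unique (L := L) h5
    have h10 : r ≤ 2 := by
      rw [h5, h6] at h
      omega
    omega

theorem exists_three {r : ℕ} (S : Finset (HeightOneSpectrum (𝓞 k)))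
    (h : 3 ≤ r * (Fintype.card (InfinitePlace k) + S.card)) :
    ∃ (L : Type) (_ : Field L) (_ : NumberField L) (_ : Algebra k L),
      Module.finrank k L ≤ r ∧ 3 ≤ numPl S L := by
  have ha : 1 ≤ Fintype.card (InfinitePlace k) := Fintype.card_pos
  have hr : 1 ≤ r := by
    rcases Nat.eq_zero_or_pos r with rfl | h'
    · omega
    · exact h'
  rcases Nat.lt_or_ge (Fintype.card (InfinitePlace k) + S.card) 3 with h1 | h1
  · rcases Nat.lt_or_ge (Fintype.card (InfinitePlace k) + S.card) 2 with h2 | h2
    · have h3 : Fintype.card (InfinitePlace k) = 1 := by omega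
      have h4 : S.card = 0 := by omega
      rw [h3, h4] at h
      obtain ⟨L, i1, i2, i3, h5, h6⟩ := exists_cubic k (finrank_le_two h3)
      refine ⟨L, i1, i2, i3, by omega, ?_⟩
      unfold numPl
      rw [h6, h3]
      omega
    · have h3 : 2 ≤ r := by
        by_contra hc
        have : r = 1 := by omega
        rw [this] at h
        omega
      obtain ⟨L, i1, i2, i3, h5, h6⟩ := exists_quad k
      refine ⟨L, i1, i2, i3, by omega, ?_⟩
      unfold numPl
      have h7 := le_above (L := L) S
      rw [h6]
      omega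
  · refine ⟨k, inferInstance, inferInstance, inferInstance, ?_, ?_⟩
    · rw [Module.finrank_self]; exact hr
    · unfold numPl
      have h7 := le_above (L := k) S
      omega

end Pool.Agent.N698.TP
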