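import Pool.Agent.N698.TP.Fin

set_option autoImplicit false

/-!
Units close to `1` at an infinite place: pigeonhole principle.
-/

namespace Pool.Agent.N698.TP

open NumberField IsDedekindDomain Height Finset Pool.Agent.W231.V

variable {K : Type*} [Field K] [NumberField K]

lemma box {R x y : ℝ} {k : ℕ} (hR : 0 < R) (hk : 0 < k) (hx : -R ≤ x) (hy : -R ≤ y)
    (h : ⌊(x + R) / (2 * R) * k⌋₊ = ⌊(y + R) / (2 * R) * k⌋₊) : |x - y| ≤ 2 * R / k := by
  have hk' : (0 : ℝ) < k := by exact_mod_cast hk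
  have h1 : 0 ≤ (x + R) / (2 * R) * k := by
    have : 0 ≤ x + R := by linarith
    positivity
  have h2 : 0 ≤ (y + R) / (2 * R) * k := by
    have : 0 ≤ y + R := by linarith
    positivity
  have a1 := Nat.floor_le h1
  have a2 := Nat.lt_floor_add_one ((x + R) / (2 * R) * k)
  have b1 := Nat.floor_le h2
  have b2 := Nat.lt_floor_add_one ((y + R) / (2 * R) * k)
  rw [h] at a1 a2
  have h3 : |(x + R) / (2 * R) * k - (y + R) / (2 * R) * k| ≤ 1 := by
    rw [abs_le]; constructor <;> linarith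
  have h4 : (x + R) / (2 * R) * k - (y + R) / (2 * R) * k = (x - y) * (k / (2 * R)) := by
    field_simp
    ring
  rw [h4, abs_mul, abs_of_pos (by positivity : 0 < (k : ℝ) / (2 * R))] at h3
  rw [le_div_iff₀ hk']
  have h5 : |x - y| * (k / (2 * R)) = |x - y| * k / (2 * R) := by ring
  rw [h5, div_le_one (by positivity)] at h3
  exact h3

lemma floor_le {R x : ℝ} {k : ℕ} (hR : 0 < R) (hx : x ≤ R) :
    ⌊(x + R) / (2 * R) * k⌋₊ ∈ Finset.range (k + 1) := by
  rw [Finset.mem_range, Nat.lt_succ_iff]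
  refine Nat.floor_le_of_le ?_
  have : (x + R) / (2 * R) ≤ 1 := by
    rw [div_le_one (by positivity)]; linarith
  calc (x + R) / (2 * R) * k ≤ 1 * k := mul_le_mul_of_nonneg_right this (Nat.cast_nonneg _)
    _ = k := one_mul _

theorem arch_pig (w0 : InfinitePlace K) : ∃ c0 : ℝ, 0 ≤ c0 ∧ ∃ c1 : ℝ, 0 < c1 ∧
    ∀ T N k1 k2 : ℕ, 0 < N → 0 < k1 → (w0.IsReal ∨ 0 < k2) →
      (k1 + 1) * (k2 + 1) * T < (N + 1) ^ Units.rank K →
      ∃ U : Finset K, T ≤ U.card ∧ ∀ t ∈ U, t ≠ 0 ∧ t ≠ 1 ∧ (∀ v, fv v t = 1) ∧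
        logHeight₁ t ≤ c0 * N ∧ ∃ z : ℂ, w0.embedding t = Complex.exp z ∧
          ‖z‖ ≤ c1 * N / k1 + 2 * Real.pi / k2 := by
  classical
  set φ := w0.embedding with hφ
  set y : (Fin (Units.rank K) → ℕ) → (𝓞 K)ˣ := fun a => ∏ i, Units.fundSystem K i ^ a i with hy
  set c2 : ℝ := ∑ i, |Real.log (w0 ((Units.fundSystem K i : 𝓞 K) : K))| + 1 with hc2
  have hc20 : 0 < c2 := by
    have : 0 ≤ ∑ i, |Real.log (w0 ((Units.fundSystem K i : 𝓞 K) : K))| :=
      Finset.sum_nonneg fun _ _ => abs_nonneg _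
    linarith
  set c3 : ℝ := ∑ i, logHeight₁ ((Units.fundSystem K i : 𝓞 K) : K) with hc3
  have hc30 : 0 ≤ c3 := Finset.sum_nonneg fun _ _ => zero_le_logHeight₁ _
  have hyK : ∀ a, ((y a : 𝓞 K) : K) = ∏ i, ((Units.fundSystem K i : 𝓞 K) : K) ^ a i := by
    intro a
    rw [hy]
    push_cast
    rfl
  have hy0 : ∀ u : (𝓞 K)ˣ, ((u : 𝓞 K) : K) ≠ 0 := fun u =>
    (map_ne_zero_iff _ RingOfIntegers.coe_injective).2 u.ne_zero
  have hunit : ∀ (v : HeightOneSpectrum (𝓞 K)) (u : (𝓞 K)ˣ), fv v ((u : 𝓞 K) : K) = 1 := by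
    intro v u
    rw [fv_notMem]
    intro h
    exact v.isPrime.ne_top (Ideal.eq_top_of_isUnit_mem _ h u.isUnit)
  have hw : ∀ x : K, ‖φ x‖ = w0 x := fun x => InfinitePlace.norm_embedding_eq w0 x
  set z : (Fin (Units.rank K) → ℕ) → ℂ := fun a => Complex.log (φ ((y a : 𝓞 K) : K) ^ 2) with hz
  have hφ0 : ∀ u : (𝓞 K)ˣ, φ ((u : 𝓞 K) : K) ≠ 0 := fun u => (map_ne_zero φ).2 (hy0 u)
  have hexp : ∀ a, Complex.exp (z a) = φ ((y a : 𝓞 K) : K) ^ 2 := fun a =>
    Complex.exp_log (pow_ne_zero _ (hφ0 _))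
  have hre : ∀ (N : ℕ) a, (∀ i, a i ≤ N) → |(z a).re| ≤ 2 * c2 * N := by
    intro N a ha
    have h1 : (z a).re = 2 * Real.log (w0 ((y a : 𝓞 K) : K)) := by
      rw [hz]
      change (Complex.log (φ ((y a : 𝓞 K) : K) ^ 2)).re = _
      rw [Complex.log_re, norm_pow, hw, Real.log_pow]
      push_cast
      rfl
    have h2 : Real.log (w0 ((y a : 𝓞 K) : K)) =
        ∑ i, (a i : ℝ) * Real.log (w0 ((Units.fundSystem K i : 𝓞 K) : K)) := by
      rw [hyK, map_prod, Real.log_prod]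
      · exact Finset.sum_congr rfl fun i _ => by rw [map_pow, Real.log_pow]
      · intro i _
        rw [map_pow]
        exact pow_ne_zero _ (w0.pos_iff.2 (hy0 _)).ne'
    rw [h1, h2, abs_mul, abs_of_pos (by norm_num : (0 : ℝ) < 2), mul_assoc]
    refine mul_le_mul_of_nonneg_left ?_ (by norm_num)
    refine (Finset.abs_sum_le_sum_abs _ _).trans ?_
    have h3 : ∀ i, |(a i : ℝ) * Real.log (w0 ((Units.fundSystem K i : 𝓞 K) : K))| ≤
        N * |Real.log (w0 ((Units.fundSystem K i : 𝓞 K) : K))| := by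
      intro i
      rw [abs_mul, abs_of_nonneg (Nat.cast_nonneg _)]
      exact mul_le_mul_of_nonneg_right (by exact_mod_cast ha i) (abs_nonneg _)
    refine (Finset.sum_le_sum fun i _ => h3 i).trans ?_
    rw [← Finset.mul_sum, hc2]
    have : (0 : ℝ) ≤ N := Nat.cast_nonneg _
    nlinarith
  have him : ∀ a, |(z a).im| ≤ Real.pi := by
    intro a
    rw [hz]
    change |(Complex.log (φ ((y a : 𝓞 K) : K) ^ 2)).im| ≤ Real.pi
    rw [Complex.log_im]
    exact Complex.abs_arg_le_pi _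
  have him0 : w0.IsReal → ∀ a, (z a).im = 0 := by
    intro hr a
    rw [InfinitePlace.isReal_iff] at hr
    have h1 : φ ((y a : 𝓞 K) : K) ^ 2 =
        (((hr.embedding ((y a : 𝓞 K) : K)) ^ 2 : ℝ) : ℂ) := by
      push_cast
      rw [ComplexEmbedding.IsReal.coe_embedding_apply]
    rw [hz]
    change (Complex.log (φ ((y a : 𝓞 K) : K) ^ 2)).im = 0
    rw [h1, ← Complex.ofReal_log (by positivity)]
    exact Complex.ofReal_im _
  have hht : ∀ (N : ℕ) a, (∀ i, a i ≤ N) → logHeight₁ ((y a : 𝓞 K) : K) ≤ N * c3 := by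
    intro N a ha
    rw [hyK, hc3, Finset.mul_sum]
    refine (logHeight₁_prod_le _ _).trans (Finset.sum_le_sum fun g _ => ?_)
    rw [logHeight₁_pow]
    exact mul_le_mul_of_nonneg_right (by exact_mod_cast ha g) (zero_le_logHeight₁ _)
  have hpi := Real.pi_pos
  refine ⟨4 * c3, by positivity, 4 * c2, by positivity, fun T N k1 k2 hN hk1 hk2 hcard => ?_⟩
  have hN' : (0 : ℝ) < N := by exact_mod_cast hN
  set R : ℝ := 2 * c2 * N with hR
  have hR0 : 0 < R := by positivity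
  have hle : ∀ (a : Fin (Units.rank K) → Fin (N + 1)) i, (a i : ℕ) ≤ N := fun a i => by
    have := (a i).2
    omega
  obtain ⟨s', -, hs1, hs2⟩ := class_pick
    (Finset.univ : Finset (Fin (Units.rank K) → Fin (N + 1)))
    (Finset.range (k1 + 1) ×ˢ Finset.range (k2 + 1))
    (fun a => (⌊((z fun i => (a i : ℕ)).re + R) / (2 * R) * k1⌋₊,
      ⌊((z fun i => (a i : ℕ)).im + Real.pi) / (2 * Real.pi) * k2⌋₊))
    (fun a _ => by
      rw [Finset.mem_product]
      exact ⟨floor_le hR0 (abs_le.1 (hre N _ (hle a))).2, floor_le hpi (abs_le.1 (him _)).2⟩) T (by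
      rw [Finset.card_product, Finset.card_range, Finset.card_range, Finset.card_univ,
        Fintype.card_fun, Fintype.card_fin, Fintype.card_fin]
      exact hcard)
  have hne : s'.Nonempty := Finset.card_pos.1 (by omega)
  obtain ⟨a0, ha0⟩ := hne
  have hcoe : ∀ a : Fin (Units.rank K) → Fin (N + 1), ∀ b : Fin (Units.rank K) → Fin (N + 1),
      (fun g => (a g : ℕ)) = (fun g => (b g : ℕ)) → a = b := by
    intro a b h
    funext g
    exact Fin.ext (congrFun h g)
  -- distinctness of the squares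
  have hsq : ∀ a b : Fin (Units.rank K) → ℕ,
      ((y a : 𝓞 K) : K) ^ 2 = ((y b : 𝓞 K) : K) ^ 2 → a = b := by
    intro a b h
    have h1 : y a ^ 2 = y b ^ 2 := by
      apply Units.ext
      apply RingOfIntegers.coe_injective
      push_cast
      exact h
    have h2 : (fun i => a i * 2) = fun i => b i * 2 := by
      apply unit_inj (K := K)
      rw [hy] at h1
      simp only [← Finset.prod_pow, ← pow_mul] at h1
      exact h1
    funext i
    have h3 : a i * 2 = b i * 2 := congrFun h2 i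
    omega
  have hsq0 : ∀ u : (𝓞 K)ˣ, ((u : 𝓞 K) : K) ^ 2 ≠ 0 := fun u => pow_ne_zero _ (hy0 u)
  refine ⟨(s'.erase a0).image fun a => ((y fun g => (a g : ℕ) : 𝓞 K) : K) ^ 2 /
    ((y fun g => (a0 g : ℕ) : 𝓞 K) : K) ^ 2, ?_, ?_⟩
  · rw [Finset.card_image_of_injective]
    · rw [Finset.card_erase_of_mem ha0]
      omega
    · intro a b hab
      exact hcoe a b (hsq _ _ ((div_left_inj' (hsq0 _)).1 hab))
  · intro t ht
    obtain ⟨a, ha, rfl⟩ := Finset.mem_image.1 ht
    obtain ⟨hane, has⟩ := Finset.mem_erase.1 ha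
    have hpair := hs2 a has a0 ha0
    rw [Prod.mk.injEq] at hpair
    refine ⟨div_ne_zero (hsq0 _) (hsq0 _), ?_, fun v => ?_, ?_,
      z (fun g => (a g : ℕ)) - z (fun g => (a0 g : ℕ)), ?_, ?_⟩
    · intro h
      rw [div_eq_one_iff_eq (hsq0 _)] at h
      exact hane (hcoe a a0 (hsq _ _ h))
    · rw [map_div₀, map_pow, map_pow, hunit, hunit]
      norm_num
    · rw [div_eq_mul_inv]
      refine (logHeight₁_mul_le _ _).trans ?_
      rw [logHeight₁_inv, logHeight₁_pow, logHeight₁_pow]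
      have h1 := hht N (fun g => (a g : ℕ)) (hle a)
      have h2 := hht N (fun g => (a0 g : ℕ)) (hle a0)
      push_cast
      linarith
    · rw [Complex.exp_sub, hexp, hexp, map_div₀, map_pow, map_pow]
    · refine (Complex.norm_le_abs_re_add_abs_im _).trans (add_le_add ?_ ?_)
      · rw [Complex.sub_re]
        have h1 := box hR0 hk1 (abs_le.1 (hre N _ (hle a))).1 (abs_le.1 (hre N _ (hle a0))).1
          hpair.1
        refine h1.trans (le_of_eq ?_)
        rw [hR]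
        ring
      · rw [Complex.sub_im]
        rcases hk2 with h | h
        · rw [him0 h, him0 h, sub_self, abs_zero]
          positivity
        · exact box hpi h (abs_le.1 (him _)).1 (abs_le.1 (him _)).1 hpair.2

/-- closeness from the exponential -/
lemma close_exp (w0 : InfinitePlace K) {t : K} (ht1 : t ≠ 1) {z : ℂ} {D : ℝ}
    (h : w0.embedding t = Complex.exp z) (hz : ‖z‖ ≤ D) (hD0 : 0 < D) (hD : D ≤ 1) :
    Real.log (w0 (t - 1)) ≤ Real.log 2 + Real.log D := by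
  have h1 : w0 (t - 1) = ‖Complex.exp z - 1‖ := by
    rw [← InfinitePlace.norm_embedding_eq, map_sub, map_one, h]
  have h2 : 0 < w0 (t - 1) := w0.pos_iff.2 (sub_ne_zero.2 ht1)
  have h3 : w0 (t - 1) ≤ 2 * D := by
    rw [h1]
    refine (Complex.norm_exp_sub_one_le (hz.trans hD)).trans ?_
    linarith
  rw [← Real.log_mul (by norm_num) hD0.ne']
  exact Real.log_le_log h2 h3

theorem arch_case (w0 : InfinitePlace K) (hρ : 2 ≤ Units.rank K) : ∃ c0 : ℝ, 0 ≤ c0 ∧ ∀ T : ℕ,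
    ∃ (C : ℝ) (N0 : ℕ), ∀ N : ℕ, N0 ≤ N →
      ∃ U : Finset K, T ≤ U.card ∧ ∀ t ∈ U, t ≠ 0 ∧ t ≠ 1 ∧ (∀ v, fv v t = 1) ∧
        logHeight₁ t ≤ c0 * N ∧
        ((Units.rank K - 1 : ℕ) : ℝ) * Real.log N ≤
          -((w0.mult : ℝ) * Real.log (w0 (t - 1))) + C := by
  obtain ⟨c0, hc0, c1, hc1, hpig⟩ := arch_pig w0
  refine ⟨c0, hc0, fun T => ?_⟩
  obtain ⟨r, hr⟩ : ∃ r, Units.rank K = r + 1 := ⟨Units.rank K - 1, by omega⟩
  have hr1 : 1 ≤ r := by omega
  rw [hr] at hpig ⊢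
  rw [Nat.add_sub_cancel]
  have hT : (0 : ℝ) < T + 1 := by positivity
  rcases w0.isReal_or_isComplex with hreal | hcomp
  · -- a real place
    set c : ℝ := 4 * c1 * (T + 1) with hc
    have hcpos : 0 < c := by positivity
    refine ⟨Real.log 2 + Real.log c, ⌈c⌉₊ + 4 * (T + 1), fun N hN => ?_⟩
    have hNT : 4 * (T + 1) ≤ N := by omega
    have hN0 : 0 < N := by omega
    have hN' : (0 : ℝ) < N := by exact_mod_cast hN0
    have hNc : c ≤ N := by
      refine (Nat.le_ceil c).trans ?_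
      exact_mod_cast (by omega : ⌈c⌉₊ ≤ N)
    set k1 := (N + 1) ^ (r + 1) / (2 * (T + 1)) with hk1
    have hbig : 4 * (T + 1) ≤ (N + 1) ^ (r + 1) := by
      calc 4 * (T + 1) ≤ N + 1 := by omega
        _ = (N + 1) ^ 1 := (pow_one _).symm
        _ ≤ (N + 1) ^ (r + 1) := Nat.pow_le_pow_right (by omega) (by omega)
    have e1 : k1 * (2 * (T + 1)) ≤ (N + 1) ^ (r + 1) := Nat.div_mul_le_self _ _
    have e2 : (N + 1) ^ (r + 1) < (k1 + 1) * (2 * (T + 1)) := by
      have := Nat.lt_div_mul_add (a := (N + 1) ^ (r + 1)) (b := 2 * (T + 1)) (by omega)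
      rw [← hk1] at this
      linarith
    have hk1pos : 1 ≤ k1 := (Nat.le_div_iff_mul_le (by omega)).2 (by omega)
    obtain ⟨U, hU, hU2⟩ := hpig T N k1 0 hN0 hk1pos (Or.inl hreal) (by
      have h2 : (k1 + 1) * (T + 1) ≤ (N + 1) ^ (r + 1) := by nlinarith
      calc (k1 + 1) * (0 + 1) * T = (k1 + 1) * T := by ring
        _ < (k1 + 1) * (T + 1) := Nat.mul_lt_mul_of_pos_left (Nat.lt_succ_self T) (by omega)
        _ ≤ _ := h2)
    refine ⟨U, hU, fun t ht => ?_⟩
    obtain ⟨h1, h2, h3, h4, z, h5, h6⟩ := hU2 t ht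
    refine ⟨h1, h2, h3, h4, ?_⟩
    have hk1' : (0 : ℝ) < k1 := by exact_mod_cast hk1pos
    have e3 : (N : ℝ) ^ (r + 1) ≤ 4 * (T + 1) * k1 := by
      have e4 : (N + 1) ^ (r + 1) ≤ 4 * (T + 1) * k1 := by nlinarith
      have e5 : ((N : ℝ) + 1) ^ (r + 1) ≤ 4 * (T + 1) * k1 := by exact_mod_cast e4
      exact (pow_le_pow_left₀ hN'.le (by linarith) _).trans e5
    have hD : c1 * N / k1 + 2 * Real.pi / (0 : ℕ) ≤ c / N ^ r := by
      rw [Nat.cast_zero, div_zero, add_zero, div_le_div_iff₀ hk1' (by positivity), hc]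
      calc c1 * N * N ^ r = c1 * N ^ (r + 1) := by ring
        _ ≤ c1 * (4 * (T + 1) * k1) := mul_le_mul_of_nonneg_left e3 hc1.le
        _ = _ := by ring
    have hD1 : c / (N : ℝ) ^ r ≤ 1 := by
      rw [div_le_one (by positivity)]
      refine hNc.trans ?_
      calc (N : ℝ) = N ^ 1 := (pow_one _).symm
        _ ≤ N ^ r := pow_le_pow_right₀ (by exact_mod_cast hN0) hr1
    have h7 := close_exp w0 h2 h5 (h6.trans hD) (by positivity) hD1
    rw [Real.log_div hcpos.ne' (by positivity), Real.log_pow] at h7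
    have hm : w0.mult = 1 := by
      unfold InfinitePlace.mult
      rw [if_pos hreal]
    rw [hm]
    push_cast
    linarith
  · -- a complex place
    set c : ℝ := 16 * (c1 + 2 * Real.pi) ^ 2 * (T + 1) with hc
    have hpi := Real.pi_pos
    have hcpos : 0 < c := by positivity
    refine ⟨2 * Real.log 2 + Real.log c, ⌈c⌉₊ + 4 * (T + 1), fun N hN => ?_⟩
    have hNT : 4 * (T + 1) ≤ N := by omega
    have hN0 : 0 < N := by omega
    have hN' : (0 : ℝ) < N := by exact_mod_cast hN0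
    have hNc : c ≤ N := by
      refine (Nat.le_ceil c).trans ?_
      exact_mod_cast (by omega : ⌈c⌉₊ ≤ N)
    set x := (N + 1) ^ r / (2 * (T + 1)) with hx
    set k := Nat.sqrt x with hk
    have hbig : 4 * (T + 1) ≤ (N + 1) ^ r := by
      calc 4 * (T + 1) ≤ N + 1 := by omega
        _ = (N + 1) ^ 1 := (pow_one _).symm
        _ ≤ (N + 1) ^ r := Nat.pow_le_pow_right (by omega) (by omega)
    have e1 : x * (2 * (T + 1)) ≤ (N + 1) ^ r := Nat.div_mul_le_self _ _
    have e2 : (N + 1) ^ r < (x + 1) * (2 * (T + 1)) := by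
      have := Nat.lt_div_mul_add (a := (N + 1) ^ r) (b := 2 * (T + 1)) (by omega)
      rw [← hx] at this
      linarith
    have hxpos : 1 ≤ x := (Nat.le_div_iff_mul_le (by omega)).2 (by omega)
    have hkpos : 1 ≤ k := by
      rw [hk, Nat.le_sqrt]
      simpa using hxpos
    have e3 : k * k ≤ x := Nat.sqrt_le x
    have e4 : x + 1 ≤ (k + 1) * (k + 1) := Nat.succ_le_succ_sqrt x
    obtain ⟨U, hU, hU2⟩ := hpig T N (N * k) k hN0 (by positivity) (Or.inr hkpos) (by
      have a1 : N * k + 1 ≤ (N + 1) * k := by nlinarith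
      have a2 : k + 1 ≤ 2 * k := by omega
      calc (N * k + 1) * (k + 1) * T ≤ ((N + 1) * k) * (2 * k) * T := by gcongr
        _ < ((N + 1) * k) * (2 * k) * (T + 1) :=
          Nat.mul_lt_mul_of_pos_left (Nat.lt_succ_self T) (by positivity)
        _ = (N + 1) * ((k * k) * (2 * (T + 1))) := by ring
        _ ≤ (N + 1) * (x * (2 * (T + 1))) := by gcongr
        _ ≤ (N + 1) * (N + 1) ^ r := by gcongr
        _ = (N + 1) ^ (r + 1) := by ring)
    refine ⟨U, hU, fun t ht => ?_⟩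
    obtain ⟨h1, h2, h3, h4, z, h5, h6⟩ := hU2 t ht
    refine ⟨h1, h2, h3, h4, ?_⟩
    have hk' : (0 : ℝ) < k := by exact_mod_cast hkpos
    have e5 : (N : ℝ) ^ r ≤ 8 * (T + 1) * (k : ℝ) ^ 2 := by
      have e6 : (N + 1) ^ r ≤ 8 * (T + 1) * k ^ 2 := by
        calc (N + 1) ^ r ≤ (x + 1) * (2 * (T + 1)) := e2.le
          _ ≤ ((k + 1) * (k + 1)) * (2 * (T + 1)) := by gcongr
          _ ≤ ((2 * k) * (2 * k)) * (2 * (T + 1)) := by gcongr <;> omega
          _ = _ := by ring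
      have e7 : ((N : ℝ) + 1) ^ r ≤ 8 * (T + 1) * (k : ℝ) ^ 2 := by exact_mod_cast e6
      exact (pow_le_pow_left₀ hN'.le (by linarith) _).trans e7
    have hD : c1 * N / ((N * k : ℕ) : ℝ) + 2 * Real.pi / (k : ℕ) ≤ (c1 + 2 * Real.pi) / k := by
      push_cast
      have : c1 * N / (N * k) = c1 / k := by field_simp
      rw [this, add_div]
    have hDsq : ((c1 + 2 * Real.pi) / k) ^ 2 ≤ c / N ^ r := by
      rw [div_pow, div_le_div_iff₀ (by positivity) (by positivity), hc]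
      have := mul_le_mul_of_nonneg_left e5 (sq_nonneg (c1 + 2 * Real.pi))
      nlinarith [mul_pos (pow_pos (by positivity : 0 < c1 + 2 * Real.pi) 2)
        (mul_pos hT (pow_pos hk' 2))]
    have hNr : c / (N : ℝ) ^ r ≤ 1 := by
      rw [div_le_one (by positivity)]
      refine hNc.trans ?_
      calc (N : ℝ) = N ^ 1 := (pow_one _).symm
        _ ≤ N ^ r := pow_le_pow_right₀ (by exact_mod_cast hN0) hr1
    have hD1 : (c1 + 2 * Real.pi) / k ≤ 1 := by
      have h8 : ((c1 + 2 * Real.pi) / k) ^ 2 ≤ 1 ^ 2 := by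
        rw [one_pow]; exact hDsq.trans hNr
      exact abs_le_of_sq_le_sq' h8 (by norm_num) |>.2
    have h7 := close_exp w0 h2 h5 (h6.trans hD) (by positivity) hD1
    have h9 := Real.log_le_log (by positivity) hDsq
    rw [Real.log_pow, Real.log_div hcpos.ne' (by positivity), Real.log_pow] at h9
    have hm : w0.mult = 2 := by
      unfold InfinitePlace.mult
      rw [if_neg (InfinitePlace.not_isReal_iff_isComplex.2 hcomp)]
    rw [hm]
    push_cast at h9 ⊢
    linarith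

end Pool.Agent.N698.TP
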