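import Pool.Agent.N698.TP.Arch

set_option autoImplicit false

/-!
`S`-units close to `1` at a place of `S`, if `S` has at least three places.
-/

namespace Pool.Agent.N698.TP

open NumberField IsDedekindDomain Height Finset Pool.Agent.W231.V

variable {K : Type*} [Field K] [NumberField K]

/-- the infinite places and the primes in `W` -/
abbrev Pl (W : Finset (HeightOneSpectrum (𝓞 K))) : Type _ := InfinitePlace K ⊕ {v // v ∈ W}

/-- the absolute value of a place -/
noncomputable def av {W : Finset (HeightOneSpectrum (𝓞 K))} : Pl W → AbsoluteValue K ℝ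
  | Sum.inl w => w.1
  | Sum.inr v => fv v.1

/-- the weight of a place -/
noncomputable def wt {W : Finset (HeightOneSpectrum (𝓞 K))} : Pl W → ℝ
  | Sum.inl w => w.mult
  | Sum.inr _ => 1

lemma wt_pos {W : Finset (HeightOneSpectrum (𝓞 K))} (p : Pl W) : 0 < wt p := by
  cases p with
  | inl w => exact Nat.cast_pos.2 w.mult_pos
  | inr v => exact zero_lt_one

lemma sum_pl (W : Finset (HeightOneSpectrum (𝓞 K))) (F : AbsoluteValue K ℝ → ℝ) :
    ∑ p : Pl W, wt p * F (av p) =
      ∑ w : InfinitePlace K, (w.mult : ℝ) * F w.1 + ∑ v ∈ W, F (fv v) := by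
  rw [Fintype.sum_sum_type]
  congr 1
  rw [← Finset.sum_coe_sort W fun v => F (fv v)]
  exact Finset.sum_congr rfl fun v _ => one_mul _

theorem close (W : Finset (HeightOneSpectrum (𝓞 K)))
    (hs : 3 ≤ Fintype.card (InfinitePlace K) + W.card) : ∃ p0 : Pl W, ∃ c0 : ℝ, 0 ≤ c0 ∧
    ∀ T : ℕ, ∃ (C : ℝ) (N0 : ℕ), ∀ N : ℕ, N0 ≤ N →
      ∃ U : Finset K, T ≤ U.card ∧ ∀ t ∈ U, t ≠ 0 ∧ t ≠ 1 ∧ (∀ v ∉ W, fv v t = 1) ∧
        logHeight₁ t ≤ c0 * N ∧
        ((Fintype.card (InfinitePlace K) + W.card : ℕ) - 2 : ℝ) * Real.log N ≤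
          -(wt p0 * Real.log (av p0 (t - 1))) + C := by
  classical
  have hinf : 1 ≤ Fintype.card (InfinitePlace K) := Fintype.card_pos
  have hrank : Units.rank K = Fintype.card (InfinitePlace K) - 1 := rfl
  rcases W.eq_empty_or_nonempty with rfl | ⟨v0, hv0⟩
  · -- only infinite places
    rw [Finset.card_empty, add_zero] at hs
    obtain ⟨w0⟩ : Nonempty (InfinitePlace K) := inferInstance
    obtain ⟨c0, hc0, h⟩ := arch_case w0 (by omega)
    refine ⟨Sum.inl w0, c0, hc0, fun T => ?_⟩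
    obtain ⟨C, N0, h⟩ := h T
    refine ⟨C, N0, fun N hN => ?_⟩
    obtain ⟨U, hU, h⟩ := h N hN
    refine ⟨U, hU, fun t ht => ?_⟩
    obtain ⟨h1, h2, h3, h4, h5⟩ := h t ht
    refine ⟨h1, h2, fun v _ => h3 v, h4, ?_⟩
    have e : ((Units.rank K - 1 : ℕ) : ℝ) = ((Fintype.card (InfinitePlace K) + 0 : ℕ) : ℝ) - 2 := by
      rw [hrank, Nat.cast_sub (by omega), Nat.cast_sub (by omega)]
      push_cast
      ring
    rw [Finset.card_empty, ← e]
    exact h5
  · -- a finite place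
    have hcard : (W.erase v0).card = W.card - 1 := Finset.card_erase_of_mem hv0
    have hW : 1 ≤ W.card := Finset.card_pos.2 ⟨v0, hv0⟩
    obtain ⟨c0, hc0, h⟩ := finite_case (W.erase v0) v0 (Finset.notMem_erase v0 W) (by omega)
    refine ⟨Sum.inr ⟨v0, hv0⟩, c0, hc0, fun T => ?_⟩
    obtain ⟨C, N0, h⟩ := h T
    refine ⟨C, N0, fun N hN => ?_⟩
    obtain ⟨U, hU, h⟩ := h N hN
    refine ⟨U, hU, fun t ht => ?_⟩
    obtain ⟨h1, h2, h3, h4, h5⟩ := h t ht
    refine ⟨h1, h2, fun v hv => h3 v fun h => hv (Finset.mem_of_mem_erase h), h4, ?_⟩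
    have e : ((Units.rank K + (W.erase v0).card : ℕ) : ℝ) =
        ((Fintype.card (InfinitePlace K) + W.card : ℕ) : ℝ) - 2 := by
      rw [hrank, hcard, show Fintype.card (InfinitePlace K) - 1 + (W.card - 1) =
        Fintype.card (InfinitePlace K) + W.card - 2 by omega, Nat.cast_sub (by omega)]
      push_cast
      ring
    rw [e] at h5
    refine h5.trans (le_of_eq ?_)
    change _ = -(1 * Real.log (fv v0 (t - 1))) + C
    rw [one_mul]

end Pool.Agent.N698.TP
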