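import Mathlib

set_option autoImplicit false

/-!
Sums of `n + 1` powers which vanish at `1` to the order `n`, and Kronecker substitution.
-/

namespace Pool.Agent.N698.TP

open Polynomial Finset

variable {F : Type*} [Field F] [CharZero F]

/-- the coefficients -/
noncomputable def cf (F : Type*) [Field F] {n : ℕ} (e : Fin (n + 1) → ℕ) (i : Fin (n + 1)) : F :=
  (∏ j ∈ Finset.univ.erase i, ((e i : F) - e j))⁻¹

theorem cf_ne {n : ℕ} {e : Fin (n + 1) → ℕ} (he : Function.Injective e) (i : Fin (n + 1)) :
    cf F e i ≠ 0 := by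
  unfold cf
  refine inv_ne_zero (Finset.prod_ne_zero_iff.2 fun j hj => ?_)
  rw [sub_ne_zero]
  intro h
  exact (Finset.mem_erase.1 hj).1 (he (Nat.cast_injective h)).symm

theorem sum_cf {n : ℕ} {e : Fin (n + 1) → ℕ} (he : Function.Injective e) (P : F[X])
    (hP : P.natDegree < n) : ∑ i, cf F e i * P.eval (e i : F) = 0 := by
  have hinj : Set.InjOn (fun i => (e i : F)) (Finset.univ : Finset (Fin (n + 1))) :=
    fun i _ j _ h => he (Nat.cast_injective h)
  have h1 := Lagrange.coeff_eq_sum (P := P) hinj (by
    rw [Finset.card_univ, Fintype.card_fin]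
    refine Polynomial.degree_le_natDegree.trans_lt ?_
    exact_mod_cast (by omega : P.natDegree < n + 1))
  rw [Finset.card_univ, Fintype.card_fin, Nat.add_sub_cancel,
    Polynomial.coeff_eq_zero_of_natDegree_lt hP] at h1
  rw [h1]
  exact Finset.sum_congr rfl fun i _ => by unfold cf; rw [div_eq_mul_inv, mul_comm]

/-- the sum of the powers -/
noncomputable def PP (F : Type*) [Field F] {n : ℕ} (e : Fin (n + 1) → ℕ) : F[X] :=
  ∑ i, C (cf F e i) * X ^ e i

theorem dvd_PP {n : ℕ} {e : Fin (n + 1) → ℕ} (he : Function.Injective e) :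
    (X - C (1 : F)) ^ n ∣ PP F e := by
  by_cases h0 : PP F e = 0
  · rw [h0]; exact dvd_zero _
  rcases Nat.eq_zero_or_pos n with rfl | hn
  · simp
  rw [← Polynomial.le_rootMultiplicity_iff h0]
  have : n - 1 < (PP F e).rootMultiplicity 1 := by
    rw [Polynomial.lt_rootMultiplicity_iff_isRoot_iterate_derivative h0]
    intro m hm
    have h1 : (derivative^[m] (PP F e)).eval 1 =
        ∑ i, cf F e i * (descPochhammer F m).eval (e i : F) := by
      unfold PP
      rw [Polynomial.iterate_derivative_sum, Polynomial.eval_finset_sum]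
      refine Finset.sum_congr rfl fun i _ => ?_
      rw [Polynomial.iterate_derivative_C_mul, Polynomial.iterate_derivative_X_pow_eq_natCast_mul,
        Polynomial.eval_C_mul, Polynomial.eval_mul, Polynomial.eval_natCast, Polynomial.eval_pow,
        Polynomial.eval_X, one_pow, mul_one, descPochhammer_eval_eq_descFactorial]
    unfold Polynomial.IsRoot
    rw [h1]
    refine sum_cf he _ ?_
    rw [descPochhammer_natDegree]
    omega
  omega

theorem PP_eval {n : ℕ} (e : Fin (n + 1) → ℕ) (t : F) :
    (PP F e).eval t = ∑ i, cf F e i * t ^ e i := by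
  unfold PP
  rw [Polynomial.eval_finset_sum]
  exact Finset.sum_congr rfl fun i _ => by simp

end Pool.Agent.N698.TP
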