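import Mathlib

set_option autoImplicit false

/-!
Quadratic and cubic extensions which are unramified at the infinite places.
-/

namespace Pool.Agent.N698.TP

open NumberField Polynomial

lemma exists_nonsquare (k : Type) [Field k] [NumberField k] :
    ∃ d : ℕ, 0 < d ∧ ∀ x : k, x ^ 2 ≠ d := by
  obtain ⟨p, hp1, hp⟩ := Nat.exists_infinite_primes ((discr k).natAbs + 1)
  have hpd : ¬ (p : ℤ) ∣ discr k := by
    intro h
    have h1 := Int.natAbs_dvd_natAbs.2 h
    rw [Int.natAbs_natCast] at h1
    have h2 := Nat.le_of_dvd (Int.natAbs_pos.2 (discr_ne_zero k)) h1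
    omega
  have hpI : Prime (p : ℤ) := Nat.prime_iff_prime_int.1 hp
  have h1 := (NumberField.not_dvd_discr_iff_forall_liesOver k (𝓞 k) hpI).1 hpd
  refine ⟨p, hp.pos, fun x hx => ?_⟩
  have hxint : IsIntegral ℤ x := by
    refine IsIntegral.of_pow (n := 2) (by norm_num) ?_
    rw [hx]
    have : IsIntegral ℤ (algebraMap ℤ k (p : ℤ)) := isIntegral_algebraMap
    simpa using this
  set s : 𝓞 k := ⟨x, hxint⟩ with hs
  have hs2 : s ^ 2 = ((p : ℤ) : 𝓞 k) := by
    apply RingOfIntegers.ext
    rw [hs]
    push_cast
    exact hx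
  have hprime : (Ideal.span {(p : ℤ)}).IsPrime := (Ideal.span_singleton_prime hpI.ne_zero).2 hpI
  have hmax : (Ideal.span {(p : ℤ)}).IsMaximal := hprime.isMaximal (by simpa using hpI.ne_zero)
  obtain ⟨⟨P, hP1, hP2⟩⟩ := (Ideal.span {(p : ℤ)}).nonempty_primesOver (S := 𝓞 k)
  have hPmax : P.IsMaximal := Ideal.IsMaximal.of_liesOver_isMaximal P (Ideal.span {(p : ℤ)})
  have h2 := h1 P hPmax hP2
  have h3 := Ideal.ramificationIdx_eq_one_iff.2 h2
  have hmem : ((p : ℤ) : 𝓞 k) ∈ P := by
    have : (p : ℤ) ∈ P.under ℤ := by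
      rw [← hP2.over]
      exact Ideal.mem_span_singleton_self _
    exact this
  have hsP : s ∈ P := hP1.mem_of_pow_mem 2 (by rw [hs2]; exact hmem)
  have hp2 : ((p : ℤ) : 𝓞 k) ∈ P ^ 2 := by
    rw [← hs2]
    exact Ideal.pow_mem_pow hsP 2
  have h4 : (Ideal.span {(p : ℤ)}).ramificationIdx' P ≠ 1 := by
    rw [Ideal.ramificationIdx'_ne_one_iff]
    · rw [Ideal.map_span, Set.image_singleton, Ideal.span_singleton_le_iff_mem]
      exact hp2
    · rw [Ideal.map_span, Set.image_singleton, Ideal.span_singleton_le_iff_mem]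
      exact hmem
  apply h4
  rw [Ideal.ramificationIdx'_eq_ramificationIdx]
  · exact h3
  · simpa using hpI.ne_zero

lemma galois_adjoinRoot {k : Type} [Field k] [CharZero k] (f : k[X]) [Fact (Irreducible f)]
    (hs : (f.map (algebraMap k (AdjoinRoot f))).Splits) : IsGalois k (AdjoinRoot f) := by
  have hf : Irreducible f := Fact.out
  have : IsSplittingField k (AdjoinRoot f) f := by
    refine ⟨hs, ?_⟩
    rw [eq_top_iff, ← AdjoinRoot.adjoinRoot_eq_top]
    refine Algebra.adjoin_mono ?_
    rw [Set.singleton_subset_iff, mem_rootSet]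
    exact ⟨hf.ne_zero, by simp⟩
  exact IsGalois.of_separable_splitting_field (p := f) hf.separable

theorem exists_quad (k : Type) [Field k] [NumberField k] :
    ∃ (L : Type) (_ : Field L) (_ : NumberField L) (_ : Algebra k L),
      Module.finrank k L = 2 ∧
        Fintype.card (InfinitePlace L) = Fintype.card (InfinitePlace k) * 2 := by
  obtain ⟨d, hd, hsq⟩ := exists_nonsquare k
  set f : k[X] := X ^ 2 - C (d : k) with hf
  have hdeg : f.natDegree = 2 := by
    rw [hf]; compute_degree!
  have hirr : Irreducible f := by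
    have h0 : f ≠ 0 := by
      intro h; rw [h] at hdeg; simp at hdeg
    rw [Polynomial.irreducible_iff_roots_eq_zero_of_degree_le_three (by omega) (by omega)]
    refine Multiset.eq_zero_of_forall_notMem fun x hx => ?_
    rw [mem_roots h0, IsRoot.def, hf] at hx
    simp only [eval_sub, eval_pow, eval_X, eval_C] at hx
    exact hsq x (sub_eq_zero.1 hx)
  have hfact : Fact (Irreducible f) := ⟨hirr⟩
  have hfin : FiniteDimensional k (AdjoinRoot f) := (AdjoinRoot.powerBasis hirr.ne_zero).finite
  have hnf : NumberField (AdjoinRoot f) := NumberField.of_module_finite k (AdjoinRoot f)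
  have hroot : (AdjoinRoot.root f) ^ 2 = (d : AdjoinRoot f) := by
    have := AdjoinRoot.eval₂_root f
    rw [hf] at this
    simpa [sub_eq_zero] using this
  have hgal : IsGalois k (AdjoinRoot f) := by
    refine galois_adjoinRoot f ?_
    have e : f.map (algebraMap k (AdjoinRoot f)) =
        (X - C (AdjoinRoot.root f)) * (X - C (-AdjoinRoot.root f)) := by
      have h1 : ∀ (A : Type) [CommRing A] [Algebra k A],
          f.map (algebraMap k A) = X ^ 2 - C ((d : A)) := by
        intro A _ _
        rw [hf]; simp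
      rw [h1, ← hroot]
      simp only [map_neg, map_pow]
      ring
    rw [e]
    exact (Splits.X_sub_C _).mul (Splits.X_sub_C _)
  have hfr : Module.finrank k (AdjoinRoot f) = 2 := by
    rw [(AdjoinRoot.powerBasis hirr.ne_zero).finrank, AdjoinRoot.powerBasis_dim, hdeg]
  have hunr : IsUnramifiedAtInfinitePlaces k (AdjoinRoot f) := by
    refine ⟨fun w => ?_⟩
    rw [InfinitePlace.isUnramified_iff]
    by_cases hr : (w.comap (algebraMap k (AdjoinRoot f))).IsReal
    · left
      rw [InfinitePlace.isReal_iff, ComplexEmbedding.isReal_iff]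
      have h1 := InfinitePlace.comap_embedding_of_isReal _ hr
      rw [InfinitePlace.isReal_iff, h1, ComplexEmbedding.isReal_iff] at hr
      apply RingHom.ext
      intro x
      -- the two embeddings agree on `k` and on the root
      let _ : Algebra k ℂ := (w.embedding.comp (algebraMap k (AdjoinRoot f))).toAlgebra
      set φ1 : AdjoinRoot f →ₐ[k] ℂ := { w.embedding with commutes' := fun r => rfl } with hφ1
      set φ2 : AdjoinRoot f →ₐ[k] ℂ :=
        { ComplexEmbedding.conjugate w.embedding with
          commutes' := fun r => RingHom.congr_fun hr r } with hφ2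
      have h2 : φ2 = φ1 := by
        apply AdjoinRoot.algHom_ext
        change (starRingEnd ℂ) (w.embedding (AdjoinRoot.root f)) =
          w.embedding (AdjoinRoot.root f)
        have h3 : (w.embedding (AdjoinRoot.root f)) ^ 2 = (d : ℂ) := by
          rw [← map_pow, hroot, map_natCast]
        -- a square root of a positive number is real
        rw [Complex.conj_eq_iff_im]
        have h4 := congrArg Complex.im h3
        have h5 := congrArg Complex.re h3
        rw [sq] at h4 h5
        simp only [Complex.mul_im, Complex.mul_re, Complex.natCast_im, Complex.natCast_re] at h4 h5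
        have hd' : (0 : ℝ) < d := by exact_mod_cast hd
        by_contra him
        have h6 : (w.embedding (AdjoinRoot.root f)).re = 0 := by
          have : (w.embedding (AdjoinRoot.root f)).re * (w.embedding (AdjoinRoot.root f)).im = 0 := by
            linarith
          rcases mul_eq_zero.1 this with h | h
          · exact h
          · exact absurd h him
        rw [h6] at h5
        nlinarith [mul_self_nonneg (w.embedding (AdjoinRoot.root f)).im]
      exact AlgHom.congr_fun h2 x
    · right
      exact InfinitePlace.not_isReal_iff_isComplex.1 hr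
  exact ⟨AdjoinRoot f, inferInstance, hnf, inferInstance, hfr, by
    rw [IsUnramifiedAtInfinitePlaces.card_infinitePlace k (AdjoinRoot f), hfr]⟩

lemma no_int_root (x : ℤ) : x ^ 3 - 3 * x + 1 ≠ 0 := by
  intro h
  have h1 : x * (3 - x ^ 2) = 1 := by linarith [h]
  rcases Int.mul_eq_one_iff_eq_one_or_neg_one.1 h1 with ⟨h2, -⟩ | ⟨h2, -⟩ <;>
    · rw [h2] at h; norm_num at h

lemma no_rat_root (x : ℚ) : x ^ 3 - 3 * x + 1 ≠ 0 := by
  intro h
  have hint : IsIntegral ℤ x := by
    refine ⟨X ^ 3 - 3 * X + 1, by monicity!, ?_⟩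
    simpa [eval₂_eq_eval_map] using h
  obtain ⟨y, hy⟩ := IsIntegrallyClosed.isIntegral_iff.1 hint
  refine no_int_root y ?_
  have : ((y ^ 3 - 3 * y + 1 : ℤ) : ℚ) = 0 := by
    push_cast
    rw [show (y : ℚ) = x from hy]
    exact h
  exact_mod_cast this

theorem exists_cubic (k : Type) [Field k] [NumberField k] (hk : Module.finrank ℚ k ≤ 2) :
    ∃ (L : Type) (_ : Field L) (_ : NumberField L) (_ : Algebra k L),
      Module.finrank k L = 3 ∧
        Fintype.card (InfinitePlace L) = Fintype.card (InfinitePlace k) * 3 := by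
  -- irreducibility over `ℚ`
  have hdegQ : ∀ (F : Type) [Field F] [CharZero F],
      ((X : F[X]) ^ 3 - C 3 * X + 1).natDegree = 3 := by
    intro F _ _
    compute_degree!
  have hirr' : ∀ (F : Type) [Field F] [CharZero F], (∀ x : F, x ^ 3 - 3 * x + 1 ≠ 0) →
      Irreducible ((X : F[X]) ^ 3 - C 3 * X + 1) := by
    intro F _ _ hx
    have hdeg := hdegQ F
    have h0 : ((X : F[X]) ^ 3 - C 3 * X + 1) ≠ 0 := by
      intro h; rw [h] at hdeg; simp at hdeg
    rw [Polynomial.irreducible_iff_roots_eq_zero_of_degree_le_three (by omega) (by omega)]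
    refine Multiset.eq_zero_of_forall_notMem fun x hxr => ?_
    rw [mem_roots h0, IsRoot.def] at hxr
    simp only [eval_sub, eval_add, eval_pow, eval_X, eval_mul, eval_C, eval_one] at hxr
    exact hx x hxr
  have hQ := hirr' ℚ no_rat_root
  have hnoroot : ∀ x : k, x ^ 3 - 3 * x + 1 ≠ 0 := by
    intro x hx
    have h1 : minpoly ℚ x = (X : ℚ[X]) ^ 3 - C 3 * X + 1 := by
      refine (minpoly.eq_of_irreducible_of_monic hQ ?_ ?_).symm
      · simpa using hx
      · monicity!
    have h2 := minpoly.natDegree_le (A := ℚ) x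
    rw [h1, hdegQ ℚ] at h2
    omega
  set f : k[X] := X ^ 3 - C 3 * X + 1 with hf
  have hdeg : f.natDegree = 3 := hdegQ k
  have hirr : Irreducible f := hirr' k hnoroot
  have hfact : Fact (Irreducible f) := ⟨hirr⟩
  have hfin : FiniteDimensional k (AdjoinRoot f) := (AdjoinRoot.powerBasis hirr.ne_zero).finite
  have hnf : NumberField (AdjoinRoot f) := NumberField.of_module_finite k (AdjoinRoot f)
  have key : ∀ (A : Type) [CommRing A] (φ : k →+* A) (r : A), eval₂ φ r f = r ^ 3 - 3 * r + 1 := by
    intro A _ φ r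
    rw [hf]
    simp only [eval₂_add, eval₂_sub, eval₂_mul, eval₂_C, eval₂_X, eval₂_X_pow, eval₂_one]
    rw [map_ofNat]
  have hroot : (AdjoinRoot.root f) ^ 3 - 3 * AdjoinRoot.root f + 1 = 0 := by
    rw [← key _ (AdjoinRoot.of f) (AdjoinRoot.root f)]
    exact AdjoinRoot.eval₂_root f
  have hfr : Module.finrank k (AdjoinRoot f) = 3 := by
    rw [(AdjoinRoot.powerBasis hirr.ne_zero).finrank, AdjoinRoot.powerBasis_dim, hdeg]
  have hgal : IsGalois k (AdjoinRoot f) := by
    refine galois_adjoinRoot f ?_
    have e : f.map (algebraMap k (AdjoinRoot f)) =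
        (X - C (AdjoinRoot.root f)) * (X - C (AdjoinRoot.root f ^ 2 - 2)) *
          (X - C (2 - AdjoinRoot.root f - AdjoinRoot.root f ^ 2)) := by
      have h1 : ∀ (A : Type) [CommRing A] [Algebra k A],
          f.map (algebraMap k A) = X ^ 3 - C 3 * X + 1 := by
        intro A _ _
        rw [hf]
        simp only [Polynomial.map_add, Polynomial.map_sub, Polynomial.map_mul, Polynomial.map_pow,
          map_X, map_C, Polynomial.map_one]
        rw [map_ofNat]
      rw [h1]
      have h2 : C (AdjoinRoot.root f) ^ 3 - 3 * C (AdjoinRoot.root f) + 1 =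
          (0 : (AdjoinRoot f)[X]) := by
        have := congrArg (C : AdjoinRoot f → (AdjoinRoot f)[X]) hroot
        simpa only [map_add, map_sub, map_mul, map_pow, map_one, map_zero, map_ofNat] using this
      simp only [map_sub, map_pow, map_ofNat]
      linear_combination (X * (C (AdjoinRoot.root f) + 1) - C (AdjoinRoot.root f) ^ 2 -
        C (AdjoinRoot.root f) + 1) * h2
    rw [e]
    exact ((Splits.X_sub_C _).mul (Splits.X_sub_C _)).mul (Splits.X_sub_C _)
  have hunr : IsUnramifiedAtInfinitePlaces k (AdjoinRoot f) :=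
    IsUnramifiedAtInfinitePlaces_of_odd_finrank (by rw [hfr]; decide)
  exact ⟨AdjoinRoot f, inferInstance, hnf, inferInstance, hfr, by
    rw [IsUnramifiedAtInfinitePlaces.card_infinitePlace k (AdjoinRoot f), hfr]⟩

end Pool.Agent.N698.TP
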