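import Pool.Agent.W231.V.Quad

set_option autoImplicit false

/-!
`S`-units close to `1` at a prime in `S`: pigeonhole principle.
-/

namespace Pool.Agent.N698.TP

open NumberField IsDedekindDomain Height Finset Pool.Agent.W231.V

variable {K : Type*} [Field K] [NumberField K]

/-- many points in one class -/
lemma class_pick {A Y : Type*} [DecidableEq Y] (s : Finset A) (t : Finset Y) (f : A → Y)
    (hf : ∀ a ∈ s, f a ∈ t) (T : ℕ) (h : t.card * T < s.card) :
    ∃ s' ⊆ s, T < s'.card ∧ ∀ a ∈ s', ∀ b ∈ s', f a = f b := by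
  classical
  obtain ⟨y, _, hy⟩ := Finset.exists_lt_card_fiber_of_mul_lt_card_of_maps_to hf h
  refine ⟨s.filter fun x => f x = y, Finset.filter_subset _ _, hy, fun a ha b hb => ?_⟩
  rw [(Finset.mem_filter.1 ha).2, (Finset.mem_filter.1 hb).2]

lemma fv_mem (v : HeightOneSpectrum (𝓞 K)) (x : 𝓞 K) : fv v (x : K) < 1 ↔ x ∈ v.asIdeal :=
  FinitePlace.norm_lt_one_iff_mem K v x

lemma fv_notMem (v : HeightOneSpectrum (𝓞 K)) (x : 𝓞 K) : fv v (x : K) = 1 ↔ x ∉ v.asIdeal :=
  FinitePlace.norm_eq_one_iff_notMem K v x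

lemma fv_le_one (v : HeightOneSpectrum (𝓞 K)) (x : 𝓞 K) : fv v (x : K) ≤ 1 :=
  FinitePlace.norm_le_one K v x

lemma fv_pow_mem (v : HeightOneSpectrum (𝓞 K)) {x : 𝓞 K} (hx : x ≠ 0) {m : ℕ}
    (h : x ∈ v.asIdeal ^ m) : fv v (x : K) * (Ideal.absNorm v.asIdeal : ℝ) ^ m ≤ 1 := by
  have h1 := FinitePlace.apply_mul_absNorm_pow_eq_one (FinitePlace.mk v) hx
  rw [FinitePlace.maximalIdeal_mk] at h1
  have hdvd : v.asIdeal ^ m ∣ Ideal.span {x} := by
    rw [Ideal.dvd_iff_le, Ideal.span_singleton_le_iff_mem]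
    exact h
  have hfin : FiniteMultiplicity v.asIdeal (Ideal.span {x}) := by
    refine FiniteMultiplicity.of_not_isUnit ?_ ?_
    · rw [Ideal.isUnit_iff]
      exact v.isPrime.ne_top
    · simpa using hx
  have hm : m ≤ multiplicity v.asIdeal (Ideal.span {x}) := hfin.le_multiplicity_of_pow_dvd hdvd
  have h2 : (Ideal.absNorm v.asIdeal : ℝ) ^ m ≤
      (Ideal.absNorm v.asIdeal : ℝ) ^ multiplicity v.asIdeal (Ideal.span {x}) :=
    pow_le_pow_right₀ (one_lt_norm v).le hm
  calc fv v (x : K) * (Ideal.absNorm v.asIdeal : ℝ) ^ m ≤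
      fv v (x : K) * (Ideal.absNorm v.asIdeal : ℝ) ^ multiplicity v.asIdeal (Ideal.span {x}) :=
        mul_le_mul_of_nonneg_left h2 ((fv v).nonneg _)
    _ = 1 := h1

/-- a number generating a power of a prime -/
lemma exists_gen (v : HeightOneSpectrum (𝓞 K)) : ∃ π : 𝓞 K, π ≠ 0 ∧
    fv v (π : K) < 1 ∧ ∀ w : HeightOneSpectrum (𝓞 K), w ≠ v → fv w (π : K) = 1 := by
  set h := Fintype.card (ClassGroup (𝓞 K)) with hh
  have hv : v.asIdeal ∈ nonZeroDivisors (Ideal (𝓞 K)) := mem_nonZeroDivisors_of_ne_zero v.ne_bot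
  have hpos : 0 < h := Fintype.card_pos
  have h1 : (ClassGroup.mk0 ⟨v.asIdeal, hv⟩) ^ h = 1 := pow_card_eq_one
  have h2 : (v.asIdeal ^ h).IsPrincipal := by
    refine (ClassGroup.mk0_eq_one_iff (pow_mem hv _)).1 ?_
    rw [← h1, ← map_pow]
    rfl
  obtain ⟨π, hπ⟩ := h2.principal
  have hπ' : v.asIdeal ^ h = Ideal.span {π} := hπ
  have hπ0 : π ≠ 0 := by
    rintro rfl
    rw [Ideal.span_singleton_eq_bot.2 rfl] at hπ'
    exact pow_ne_zero h v.ne_bot hπ'
  refine ⟨π, hπ0, ?_, fun w hw => ?_⟩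
  · rw [fv_mem]
    have : π ∈ v.asIdeal ^ h := by rw [hπ']; exact Ideal.mem_span_singleton_self π
    exact Ideal.pow_le_self hpos.ne' this
  · rw [fv_notMem]
    intro hc
    have h3 : v.asIdeal ^ h ≤ w.asIdeal := by
      rw [hπ', Ideal.span_singleton_le_iff_mem]; exact hc
    have h4 : v.asIdeal ≤ w.asIdeal := w.isPrime.le_of_pow_le h3
    exact hw (HeightOneSpectrum.ext (v.isMaximal.eq_of_le w.isPrime.ne_top h4).symm)

/-- powers of the fundamental units determine the exponents -/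
lemma unit_inj (a b : Fin (Units.rank K) → ℕ)
    (h : ∏ i, (Units.fundSystem K i) ^ a i = ∏ i, (Units.fundSystem K i) ^ b i) : a = b := by
  have h1 := Units.exist_unique_eq_mul_prod K (∏ i, (Units.fundSystem K i) ^ a i)
  have h2 := h1.unique (y₁ := (1, fun i => (a i : ℤ))) (y₂ := (1, fun i => (b i : ℤ)))
    (by simp) (by rw [h]; simp)
  have h3 := congrArg Prod.snd h2
  funext i
  have h4 : (a i : ℤ) = b i := congrFun h3 i
  exact_mod_cast h4

theorem finite_case (V : Finset (HeightOneSpectrum (𝓞 K))) (v0 : HeightOneSpectrum (𝓞 K))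
    (hv0 : v0 ∉ V) (hρ1 : 1 ≤ Units.rank K + V.card) : ∃ c0 : ℝ, 0 ≤ c0 ∧ ∀ T : ℕ,
    ∃ (C : ℝ) (N0 : ℕ), ∀ N : ℕ, N0 ≤ N →
      ∃ U : Finset K, T ≤ U.card ∧ ∀ t ∈ U, t ≠ 0 ∧ t ≠ 1 ∧ (∀ v ∉ V, fv v t = 1) ∧
        logHeight₁ t ≤ c0 * N ∧
        ((Units.rank K + V.card : ℕ) : ℝ) * Real.log N ≤
          -Real.log (fv v0 (t - 1)) + C := by
  classical
  choose π hπ0 hπ1 hπ2 using exists_gen (K := K)
  let G : Type _ := Fin (Units.rank K) ⊕ {x // x ∈ V}
  set gen : G → 𝓞 K := Sum.elim (fun i => ((Units.fundSystem K i : (𝓞 K)ˣ) : 𝓞 K))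
    (fun v => π v.1) with hgen
  have hcardG : Fintype.card G = Units.rank K + V.card := by
    rw [Fintype.card_sum, Fintype.card_fin, Fintype.card_coe]
  set ρ := Units.rank K + V.card with hρ
  have hunit : ∀ (v : HeightOneSpectrum (𝓞 K)) (u : (𝓞 K)ˣ), fv v ((u : 𝓞 K) : K) = 1 := by
    intro v u
    rw [fv_notMem]
    intro h
    exact v.isPrime.ne_top (Ideal.eq_top_of_isUnit_mem _ h u.isUnit)
  have hgen0 : ∀ g, gen g ≠ 0 := by
    rintro (i | v)
    · exact Units.ne_zero _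
    · exact hπ0 _
  have hgen1 : ∀ (v : HeightOneSpectrum (𝓞 K)) g, v ∉ V → fv v (gen g : K) = 1 := by
    rintro v (i | w) hv
    · exact hunit v _
    · exact hπ2 _ _ fun h => hv (h ▸ w.2)
  set u : (G → ℕ) → 𝓞 K := fun a => ∏ g, gen g ^ a g with hu
  have hu0 : ∀ a, u a ≠ 0 := fun a => Finset.prod_ne_zero_iff.2 fun g _ => pow_ne_zero _ (hgen0 g)
  have huK : ∀ a, ((u a : 𝓞 K) : K) = ∏ g, (gen g : K) ^ a g := by
    intro a
    rw [hu]
    simp
  have hu1 : ∀ (v : HeightOneSpectrum (𝓞 K)) a, v ∉ V → fv v (u a : K) = 1 := by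
    intro v a hv
    rw [huK, map_prod]
    exact Finset.prod_eq_one fun g _ => by rw [map_pow, hgen1 v g hv, one_pow]
  have hinj : Function.Injective u := by
    intro a b hab
    have h1 : ∀ w : {x // x ∈ V}, a (Sum.inr w) = b (Sum.inr w) := by
      intro w
      have h2 : ∀ a, fv w.1 (u a : K) = fv w.1 (π w.1 : K) ^ a (Sum.inr w) := by
        intro a
        rw [huK, map_prod]
        rw [Finset.prod_eq_single (Sum.inr w)]
        · rw [map_pow]; rfl
        · rintro (i | w') _ hne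
          · rw [map_pow]
            have : fv w.1 ((gen (Sum.inl i) : 𝓞 K) : K) = 1 := hunit _ _
            rw [this, one_pow]
          · rw [map_pow]
            have : fv w.1 ((gen (Sum.inr w') : 𝓞 K) : K) = 1 :=
              hπ2 _ _ fun h => hne (by rw [Subtype.ext h])
            rw [this, one_pow]
        · intro h; exact absurd (Finset.mem_univ _) h
      have h3 : fv w.1 (π w.1 : K) ^ a (Sum.inr w) = fv w.1 (π w.1 : K) ^ b (Sum.inr w) := by
        rw [← h2, ← h2, hab]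
      have h4 : 0 < fv w.1 (π w.1 : K) := (fv w.1).pos_iff.2 (by simpa using hπ0 w.1)
      exact (pow_right_strictAnti₀ h4 (hπ1 w.1)).injective h3
    have h5 : ∀ a : G → ℕ, u a = ((∏ i, Units.fundSystem K i ^ a (Sum.inl i) : (𝓞 K)ˣ) : 𝓞 K) *
        ∏ w : {x // x ∈ V}, π w.1 ^ a (Sum.inr w) := by
      intro a
      change ∏ g : Fin (Units.rank K) ⊕ {x // x ∈ V}, gen g ^ a g = _
      rw [Fintype.prod_sum_type]
      congr 1
      push_cast
      rfl
    have h6 : ((∏ i, Units.fundSystem K i ^ a (Sum.inl i) : (𝓞 K)ˣ) : 𝓞 K) =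
        ((∏ i, Units.fundSystem K i ^ b (Sum.inl i) : (𝓞 K)ˣ) : 𝓞 K) := by
      have h7 := hab
      have h7' : ∏ w : {x // x ∈ V}, π w.1 ^ a (Sum.inr w) =
          ∏ w : {x // x ∈ V}, π w.1 ^ b (Sum.inr w) :=
        Finset.prod_congr rfl fun w _ => by rw [h1 w]
      rw [h5 a, h5 b, h7'] at h7
      exact mul_right_cancel₀ (Finset.prod_ne_zero_iff.2 fun w _ => pow_ne_zero _ (hπ0 _)) h7
    have h8 := unit_inj (fun i => a (Sum.inl i)) (fun i => b (Sum.inl i)) (Units.ext h6)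
    funext g
    rcases g with i | w
    · exact congrFun h8 i
    · exact h1 w
  -- the heights
  set c1 : ℝ := ∑ g, logHeight₁ (gen g : K) with hc1
  have hc10 : 0 ≤ c1 := Finset.sum_nonneg fun g _ => zero_le_logHeight₁ _
  have hht : ∀ (N : ℕ) (a : G → ℕ), (∀ g, a g ≤ N) → logHeight₁ (u a : K) ≤ N * c1 := by
    intro N a ha
    rw [huK, hc1, Finset.mul_sum]
    refine (logHeight₁_prod_le _ _).trans (Finset.sum_le_sum fun g _ => ?_)
    rw [logHeight₁_pow]
    exact mul_le_mul_of_nonneg_right (by exact_mod_cast ha g) (zero_le_logHeight₁ _)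
  set q := Ideal.absNorm v0.asIdeal with hq
  have hq1 : 1 < q := NumberField.HeightOneSpectrum.one_lt_absNorm v0
  refine ⟨2 * c1, by positivity, fun T => ?_⟩
  refine ⟨Real.log q + Real.log (T + 1), T + 1, fun N hN => ?_⟩
  have hN1 : 1 ≤ N := by omega
  have hρpos : 0 < ρ := hρ1
  set m := Nat.log q ((N + 1) ^ ρ / (T + 1)) with hm
  have hx0 : (N + 1) ^ ρ / (T + 1) ≠ 0 := by
    have h1 : T + 1 ≤ (N + 1) ^ ρ := by
      calc T + 1 ≤ N + 1 := by omega
        _ = (N + 1) ^ 1 := (pow_one _).symm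
        _ ≤ (N + 1) ^ ρ := Nat.pow_le_pow_right (by omega) hρpos
    exact (Nat.div_pos h1 (by omega)).ne'
  have hm1 : q ^ m ≤ (N + 1) ^ ρ / (T + 1) := Nat.pow_log_le_self q hx0
  have hm2 : (N + 1) ^ ρ / (T + 1) < q ^ (m + 1) := Nat.lt_pow_succ_log_self hq1 _
  have hm3 : q ^ m * (T + 1) ≤ (N + 1) ^ ρ := (Nat.le_div_iff_mul_le (by omega)).1 hm1
  have hm4 : (N + 1) ^ ρ < q ^ (m + 1) * (T + 1) := by
    exact (Nat.div_lt_iff_lt_mul (by omega)).1 hm2
  -- pigeonhole
  have hcardQ : Nat.card (𝓞 K ⧸ v0.asIdeal ^ m) = q ^ m := by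
    rw [hq, ← map_pow, Ideal.absNorm_apply]
    rfl
  have hfinQ : Finite (𝓞 K ⧸ v0.asIdeal ^ m) := Nat.finite_of_card_ne_zero (by
    rw [hcardQ]; positivity)
  have : Fintype (𝓞 K ⧸ v0.asIdeal ^ m) := Fintype.ofFinite _
  obtain ⟨s', -, hs1, hs2⟩ := class_pick (Finset.univ : Finset (G → Fin (N + 1)))
    (Finset.univ : Finset (𝓞 K ⧸ v0.asIdeal ^ m))
    (fun a => Ideal.Quotient.mk (v0.asIdeal ^ m) (u fun g => (a g : ℕ)))
    (fun _ _ => Finset.mem_univ _) T (by
      rw [Finset.card_univ, Finset.card_univ, Fintype.card_fun, Fintype.card_fin, hcardG,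
        ← Nat.card_eq_fintype_card, hcardQ]
      refine lt_of_lt_of_le ?_ hm3
      exact Nat.mul_lt_mul_of_pos_left (Nat.lt_succ_self T) (by positivity))
  have hne : s'.Nonempty := Finset.card_pos.1 (by omega)
  obtain ⟨a0, ha0⟩ := hne
  have hcoe : ∀ a : G → Fin (N + 1), ∀ b : G → Fin (N + 1),
      (fun g => (a g : ℕ)) = (fun g => (b g : ℕ)) → a = b := by
    intro a b h
    funext g
    exact Fin.ext (congrFun h g)
  have huc : ∀ a, ((u a : 𝓞 K) : K) ≠ 0 := fun a => by simpa using hu0 a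
  refine ⟨(s'.erase a0).image fun a => ((u fun g => (a g : ℕ) : 𝓞 K) : K) /
    ((u fun g => (a0 g : ℕ) : 𝓞 K) : K), ?_, ?_⟩
  · rw [Finset.card_image_of_injective]
    · rw [Finset.card_erase_of_mem ha0]
      omega
    · intro a b hab
      have h1 : ((u fun g => (a g : ℕ) : 𝓞 K) : K) = ((u fun g => (b g : ℕ) : 𝓞 K) : K) :=
        (div_left_inj' (huc _)).1 hab
      exact hcoe a b (hinj (RingOfIntegers.coe_injective h1))
  · intro t ht
    obtain ⟨a, ha, rfl⟩ := Finset.mem_image.1 ht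
    obtain ⟨hane, has⟩ := Finset.mem_erase.1 ha
    set x := u fun g => (a g : ℕ) with hx
    set y := u fun g => (a0 g : ℕ) with hy
    have hxy : x ≠ y := fun h => hane (hcoe a a0 (hinj h))
    have hyK : (y : K) ≠ 0 := huc _
    have hsub : ((x : 𝓞 K) : K) / y - 1 = ((x - y : 𝓞 K) : K) / y := by
      push_cast
      field_simp
    refine ⟨div_ne_zero (huc _) hyK, ?_, fun v hv => ?_, ?_, ?_⟩
    · intro h
      rw [div_eq_one_iff_eq hyK] at h
      exact hxy (RingOfIntegers.coe_injective h)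
    · rw [map_div₀, hx, hy, hu1 v _ hv, hu1 v _ hv, div_one]
    · rw [div_eq_mul_inv]
      refine (logHeight₁_mul_le _ _).trans ?_
      rw [logHeight₁_inv]
      have h1 := hht N (fun g => (a g : ℕ)) fun g => by have := (a g).2; omega
      have h2 := hht N (fun g => (a0 g : ℕ)) fun g => by have := (a0 g).2; omega
      linarith
    · rw [hsub, map_div₀, hy, hu1 v0 _ hv0, div_one]
      have hmem : x - y ∈ v0.asIdeal ^ m := by
        rw [← Ideal.Quotient.eq_zero_iff_mem, map_sub, sub_eq_zero]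
        exact hs2 a has a0 ha0
      have hxy0 : x - y ≠ 0 := sub_ne_zero.2 hxy
      have h1 := fv_pow_mem v0 hxy0 hmem
      have hpos : 0 < fv v0 ((x - y : 𝓞 K) : K) := (fv v0).pos_iff.2
        ((map_ne_zero_iff _ RingOfIntegers.coe_injective).2 hxy0)
      have hq0 : (0 : ℝ) < q := by positivity
      have h2 : Real.log (fv v0 ((x - y : 𝓞 K) : K)) + m * Real.log q ≤ 0 := by
        rw [← Real.log_pow, ← Real.log_mul hpos.ne' (by positivity)]
        exact Real.log_nonpos (by positivity) h1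
      have h3 : (ρ : ℝ) * Real.log N ≤ (m + 1) * Real.log q + Real.log (T + 1) := by
        have h4 : ((N : ℝ) + 1) ^ ρ ≤ (q : ℝ) ^ (m + 1) * (T + 1) := by exact_mod_cast hm4.le
        have h5 := Real.log_le_log (by positivity) h4
        rw [Real.log_pow, Real.log_mul (by positivity) (by positivity), Real.log_pow] at h5
        have h6 : Real.log N ≤ Real.log (N + 1) :=
          Real.log_le_log (by exact_mod_cast hN1) (by linarith)
        have h7 : (ρ : ℝ) * Real.log N ≤ ρ * Real.log (N + 1) :=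
          mul_le_mul_of_nonneg_left h6 (Nat.cast_nonneg _)
        push_cast at h5
        linarith
      change _ ≤ -Real.log (fv v0 ((x - y : 𝓞 K) : K)) + _
      linarith

end Pool.Agent.N698.TP
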