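import Pool.Agent.N698.VT.Co
import Pool.Agent.W231.V.Quad

set_option autoImplicit false

/-!
The height as a sum of local terms; the height of a combination of units outside `W`.
-/

namespace Pool.Agent.N698.TP

open NumberField IsDedekindDomain Height Finset Pool.Agent.W231.V

variable {K : Type*} [Field K] [NumberField K]

/-- the maximum norm -/
noncomputable def nm {ι : Type*} (f : AbsoluteValue K ℝ) (x : ι → K) : ℝ := ⨆ j, f (x j)

omit [NumberField K] in
lemma le_nm {ι : Type*} [Finite ι] (f : AbsoluteValue K ℝ) (x : ι → K) (j : ι) :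
    f (x j) ≤ nm f x :=
  le_ciSup (f := fun j => f (x j)) (Set.finite_range _).bddAbove j

omit [NumberField K] in
lemma nm_pos {ι : Type*} [Finite ι] (f : AbsoluteValue K ℝ) {x : ι → K} (hx : x ≠ 0) :
    0 < nm f x := by
  obtain ⟨j, hj⟩ := Function.ne_iff.1 hx
  exact (f.pos_iff.2 hj).trans_le (le_nm f x j)

lemma nm_support {ι : Type*} [Finite ι] {x : ι → K} (hx : x ≠ 0) :
    {v : HeightOneSpectrum (𝓞 K) | nm (fv v) x ≠ 1}.Finite := by
  classical
  cases nonempty_fintype ι
  have hne : Nonempty ι := by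
    obtain ⟨j, _⟩ := Function.ne_iff.1 hx
    exact ⟨j⟩
  have : {v : HeightOneSpectrum (𝓞 K) | nm (fv v) x ≠ 1} ⊆
      ⋃ j ∈ Finset.univ.filter (fun j => x j ≠ 0), {v | fv v (x j) ≠ 1} := by
    intro v hv
    by_contra hcon
    simp only [Set.mem_iUnion, not_exists, Set.mem_ofPred_eq, not_not, Finset.mem_filter,
      Finset.mem_univ, true_and] at hcon hv
    apply hv
    refine le_antisymm (ciSup_le fun j => ?_) ?_
    · by_cases h0 : x j = 0
      · rw [h0, map_zero]; exact zero_le_one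
      · exact (hcon j h0).le
    · obtain ⟨j, hj⟩ := Function.ne_iff.1 hx
      rw [← hcon j hj]
      exact le_nm _ _ _
  refine Set.Finite.subset (Set.Finite.biUnion (Finset.finite_toSet _) fun j hj => ?_) this
  exact fv_support_finite (Finset.mem_filter.1 (Finset.mem_coe.1 hj)).2

lemma logHeight_eq_sum {ι : Type*} [Fintype ι] [Nonempty ι] {x : ι → K} (hx : x ≠ 0)
    (T : Finset (HeightOneSpectrum (𝓞 K)))
    (hT : ∀ v, v ∉ T → nm (fv v) x = 1) :
    logHeight x = ∑ w : InfinitePlace K, (w.mult : ℝ) * Real.log (nm w.1 x) +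
      ∑ v ∈ T, Real.log (nm (fv v) x) := by
  rw [logHeight_eq_log_mulHeight, NumberField.mulHeight_eq hx]
  have e : (∏ᶠ v : FinitePlace K, ⨆ i, v (x i)) = ∏ v ∈ T, nm (fv v) x := by
    have e1 : (∏ᶠ v : FinitePlace K, ⨆ i, v (x i)) =
        ∏ᶠ v : HeightOneSpectrum (𝓞 K), nm (fv v) x := by
      rw [← finprod_comp_equiv (FinitePlace.equivHeightOneSpectrum (K := K)).symm]
      rfl
    rw [e1]
    refine finprod_eq_prod_of_mulSupport_subset _ fun v hv => ?_
    by_contra hc
    exact hv (hT v hc)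
  have h1 : ∀ w : InfinitePlace K, (⨆ i, w (x i)) = nm w.1 x := fun w => rfl
  have h2 : ∀ w : InfinitePlace K, 0 < nm w.1 x := fun w => nm_pos _ hx
  rw [e, Real.log_mul, Real.log_prod, Real.log_prod]
  · congr 1
    refine Finset.sum_congr rfl fun w _ => ?_
    rw [h1, Real.log_pow]
  · intro v _
    exact (nm_pos _ hx).ne'
  · intro w _
    rw [h1]
    exact pow_ne_zero _ (h2 w).ne'
  · refine Finset.prod_ne_zero_iff.2 fun w _ => ?_
    rw [h1]
    exact pow_ne_zero _ (h2 w).ne'
  · exact Finset.prod_ne_zero_iff.2 fun v _ => (nm_pos _ hx).ne'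

/-- The height is bounded by the local terms in `W` if the others are bounded. -/
theorem logHeight_le_sum {ι : Type*} [Fintype ι] [Nonempty ι]
    (W : Finset (HeightOneSpectrum (𝓞 K))) {κ : Type*} [Fintype κ] (b : κ → K) {x : ι → K}
    (hx : x ≠ 0)
    (h : ∀ v, v ∉ W → ∀ i, ∃ l, fv v (x i) ≤ fv v (b l)) :
    logHeight x ≤ ∑ w : InfinitePlace K, (w.mult : ℝ) * Real.log (nm w.1 x) +
      ∑ v ∈ W, Real.log (nm (fv v) x) + ∑ l, logHeight₁ (b l) := by
  classical
  set T := (nm_support hx).toFinset ∪ W with hT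
  rw [logHeight_eq_sum hx T (fun v hv => by
    by_contra hc
    apply hv
    rw [hT, Finset.mem_union, Set.Finite.mem_toFinset]
    exact Or.inl hc)]
  have h1 : ∑ v ∈ T, Real.log (nm (fv v) x) =
      ∑ v ∈ W, Real.log (nm (fv v) x) + ∑ v ∈ T \ W, Real.log (nm (fv v) x) := by
    rw [add_comm, Finset.sum_sdiff Finset.subset_union_right]
  have h2 : ∑ v ∈ T \ W, Real.log (nm (fv v) x) ≤
      ∑ v ∈ T \ W, ∑ l, Real.posLog (fv v (b l)) := by
    refine Finset.sum_le_sum fun v hv => ?_
    have hv' : v ∉ W := (Finset.mem_sdiff.1 hv).2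
    obtain ⟨i, hi⟩ := exists_eq_ciSup_of_finite (f := fun j => fv v (x j))
    obtain ⟨l, hl⟩ := h v hv' i
    have h3 : nm (fv v) x ≤ fv v (b l) := by
      unfold nm
      rw [← hi]; exact hl
    calc Real.log (nm (fv v) x) ≤ Real.log (fv v (b l)) := Real.log_le_log (nm_pos _ hx) h3
      _ ≤ Real.posLog (fv v (b l)) := le_max_right _ _
      _ ≤ ∑ l, Real.posLog (fv v (b l)) :=
        Finset.single_le_sum (f := fun l => Real.posLog (fv v (b l)))
          (fun _ _ => Real.posLog_nonneg) (Finset.mem_univ l)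
  have h3 : ∑ v ∈ T \ W, ∑ l, Real.posLog (fv v (b l)) ≤ ∑ l, logHeight₁ (b l) := by
    rw [Finset.sum_comm]
    refine Finset.sum_le_sum fun l _ => ?_
    by_cases hb : b l = 0
    · rw [hb]
      simp
    · exact sum_posLog_le hb _
  linarith

end Pool.Agent.N698.TP
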