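import Pool.Agent.N698.TP.Curve

set_option autoImplicit false

/-!
Lacunary exponents: a nonzero form does not vanish identically on the curve `(c i * T ^ e i)`.
-/

namespace Pool.Agent.N698.TP

open Polynomial Finset

/-- the exponents `0, 1, b, b ^ 2, …` -/
def ex (b : ℕ) {n : ℕ} : Fin (n + 1) → ℕ := Fin.cons 0 fun j : Fin n => b ^ (j : ℕ)

theorem ex_zero (b n : ℕ) : ex b (0 : Fin (n + 1)) = 0 := rfl

theorem ex_succ (b : ℕ) {n : ℕ} (j : Fin n) : ex b j.succ = b ^ (j : ℕ) := rfl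

theorem ex_inj {b : ℕ} (hb : 2 ≤ b) {n : ℕ} : Function.Injective (ex b (n := n)) := by
  intro i j
  refine Fin.cases ?_ (fun i => ?_) i <;> refine Fin.cases ?_ (fun j => ?_) j
  · intro _; rfl
  · intro h
    rw [ex_zero, ex_succ] at h
    have := pow_pos (by omega : 0 < b) (j : ℕ)
    omega
  · intro h
    rw [ex_zero, ex_succ] at h
    have := pow_pos (by omega : 0 < b) (i : ℕ)
    omega
  · intro h
    rw [ex_succ, ex_succ] at h
    have := Nat.pow_right_injective hb h
    rw [Fin.ext this]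

theorem ex_le {b : ℕ} (hb : 1 ≤ b) {n : ℕ} (i : Fin (n + 1)) : ex b i ≤ b ^ n := by
  refine Fin.cases ?_ (fun i => ?_) i
  · exact Nat.zero_le _
  · rw [ex_succ]
    exact Nat.pow_le_pow_right hb i.2.le

theorem digits_inj {b n : ℕ} (a a' : Fin n → ℕ) (h1 : ∀ j, a j < b) (h2 : ∀ j, a' j < b)
    (h : ∑ j, a j * b ^ (j : ℕ) = ∑ j, a' j * b ^ (j : ℕ)) : a = a' := by
  have h3 : (fun j => (⟨a j, h1 j⟩ : Fin b)) = fun j => ⟨a' j, h2 j⟩ := by
    apply finFunctionFinEquiv.injective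
    apply Fin.ext
    rw [finFunctionFinEquiv_apply, finFunctionFinEquiv_apply]
    exact h
  funext j
  have := congrFun h3 j
  exact congrArg Fin.val this

variable {Q₀ : Type*} [Field Q₀]

/-- the form on the curve -/
noncomputable def onC {n : ℕ} (e : Fin (n + 1) → ℕ) (c : Fin (n + 1) → Q₀)
    (Q : MvPolynomial (Fin (n + 1)) Q₀) : Q₀[X] :=
  MvPolynomial.eval₂ C (fun i => C (c i) * X ^ e i) Q

theorem onC_eval {n : ℕ} (e : Fin (n + 1) → ℕ) (c : Fin (n + 1) → Q₀)
    (Q : MvPolynomial (Fin (n + 1)) Q₀) (t : Q₀) :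
    (onC e c Q).eval t = MvPolynomial.eval (fun i => c i * t ^ e i) Q := by
  unfold onC
  have h1 := MvPolynomial.hom_eval₂ Q (C : Q₀ →+* Q₀[X]) (Polynomial.evalRingHom t)
    (fun i => C (c i) * X ^ e i)
  have h2 : (Polynomial.evalRingHom t).comp (C : Q₀ →+* Q₀[X]) = RingHom.id Q₀ := by
    ext x; simp
  rw [h2] at h1
  rw [← Polynomial.coe_evalRingHom, h1]
  rw [MvPolynomial.eval, MvPolynomial.coe_eval₂Hom]
  congr 1
  funext i
  simp

theorem onC_eq {n : ℕ} (e : Fin (n + 1) → ℕ) (c : Fin (n + 1) → Q₀)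
    (Q : MvPolynomial (Fin (n + 1)) Q₀) :
    onC e c Q = ∑ a ∈ Q.support, C (Q.coeff a * ∏ i, c i ^ a i) * X ^ (∑ i, a i * e i) := by
  unfold onC
  rw [MvPolynomial.eval₂_eq']
  refine Finset.sum_congr rfl fun a _ => ?_
  rw [map_mul, map_prod, mul_assoc, ← Finset.prod_pow_eq_pow_sum, ← Finset.prod_mul_distrib]
  congr 1
  refine Finset.prod_congr rfl fun i _ => ?_
  rw [mul_pow, ← pow_mul, map_pow, mul_comm (a i)]

theorem onC_ne {n δ : ℕ} {b : ℕ} (hb : δ < b) {c : Fin (n + 1) → Q₀} (hc : ∀ i, c i ≠ 0)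
    {Q : MvPolynomial (Fin (n + 1)) Q₀} (hQ : Q ≠ 0) (hhom : Q.IsHomogeneous δ) :
    onC (ex b) c Q ≠ 0 := by
  classical
  have hdeg : ∀ a ∈ Q.support, ∑ i, a i = δ := by
    intro a ha
    have := hhom.degree_eq_sum_deg_support ha
    rw [this]
    exact (Finset.sum_subset (Finset.subset_univ _) fun i _ hi => by simpa using hi).symm
  have hinj : ∀ a ∈ Q.support, ∀ a' ∈ Q.support,
      ∑ i, a i * ex b i = ∑ i, a' i * ex b i → a = a' := by
    intro a ha a' ha' h
    have d1 := hdeg a ha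
    have d2 := hdeg a' ha'
    rw [Fin.sum_univ_succ, Fin.sum_univ_succ] at h
    simp only [ex_zero, ex_succ, mul_zero, zero_add] at h
    have h3 := digits_inj (fun j : Fin n => a j.succ) (fun j => a' j.succ) (fun j => by
      have : a j.succ ≤ ∑ i, a i := Finset.single_le_sum (f := fun i => a i)
        (fun _ _ => Nat.zero_le _) (Finset.mem_univ _)
      change a j.succ < b
      omega) (fun j => by
      have : a' j.succ ≤ ∑ i, a' i := Finset.single_le_sum (f := fun i => a' i)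
        (fun _ _ => Nat.zero_le _) (Finset.mem_univ _)
      change a' j.succ < b
      omega) h
    rw [Fin.sum_univ_succ] at d1 d2
    have h4 : ∀ j : Fin n, a j.succ = a' j.succ := fun j => congrFun h3 j
    ext i
    refine Fin.cases ?_ (fun i => h4 i) i
    rw [Finset.sum_congr rfl fun j _ => h4 j] at d1
    omega
  obtain ⟨a0, ha0⟩ := MvPolynomial.ne_zero_iff.1 hQ
  have ha0s : a0 ∈ Q.support := MvPolynomial.mem_support_iff.2 ha0
  intro h0
  have h1 := congrArg (fun p => p.coeff (∑ i, a0 i * ex b i)) (onC_eq (ex b) c Q)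
  rw [h0] at h1
  simp only [Polynomial.coeff_zero, Polynomial.finset_sum_coeff, Polynomial.coeff_C_mul,
    Polynomial.coeff_X_pow] at h1
  rw [Finset.sum_eq_single a0] at h1
  · rw [if_pos rfl, mul_one] at h1
    exact mul_ne_zero ha0 (Finset.prod_ne_zero_iff.2 fun i _ => pow_ne_zero _ (hc i)) h1.symm
  · intro a ha hne
    rw [if_neg, mul_zero]
    intro h
    exact hne (hinj a0 ha0s a ha h).symm
  · intro h
    exact absurd ha0s h

end Pool.Agent.N698.TP
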