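import Pool.Agent.N698.TP.Close
import Pool.Agent.N698.TP.Ht
import Pool.Agent.N698.TP.Lac

set_option autoImplicit false

/-!
The lower bound for the error term over a number field.
-/

namespace Pool.Agent.N698.TP

open NumberField IsDedekindDomain Height Finset Pool.Agent.W231.V
open Pool.Agent.N698.VT (Adapted exists_adapted pnt lin lin_hom lin_eval eval_bind)

section gen

variable {K : Type*} [Field K]

lemma av_form_le {ι : Type*} [Fintype ι] (f : AbsoluteValue K ℝ) (a x : ι → K) :
    f (∑ j, a j * x j) ≤ (∑ j, f (a j)) * nm f x := by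
  refine (f.sum_le _ _).trans ?_
  rw [Finset.sum_mul]
  refine Finset.sum_le_sum fun j _ => ?_
  rw [map_mul]
  exact mul_le_mul_of_nonneg_left (le_nm f x j) (f.nonneg _)

lemma av_poly_le (f : AbsoluteValue K ℝ) (g : Polynomial K) : ∃ C : ℝ, 1 ≤ C ∧ ∀ t : K, f t ≤ 2 →
    f (g.eval t) ≤ C := by
  refine ⟨1 + ∑ i ∈ Finset.range (g.natDegree + 1), f (g.coeff i) * 2 ^ i, ?_, fun t ht => ?_⟩
  · have : 0 ≤ ∑ i ∈ Finset.range (g.natDegree + 1), f (g.coeff i) * 2 ^ i :=
      Finset.sum_nonneg fun i _ => mul_nonneg (f.nonneg _) (by positivity)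
    linarith
  · rw [Polynomial.eval_eq_sum_range]
    refine (f.sum_le _ _).trans ?_
    have : ∑ i ∈ Finset.range (g.natDegree + 1), f (g.coeff i * t ^ i) ≤
        ∑ i ∈ Finset.range (g.natDegree + 1), f (g.coeff i) * 2 ^ i := by
      refine Finset.sum_le_sum fun i _ => ?_
      rw [map_mul, map_pow]
      exact mul_le_mul_of_nonneg_left (pow_le_pow_left₀ (f.nonneg _) ht _) (f.nonneg _)
    linarith

/-- the form in adapted coordinates on the curve -/
lemma exists_R [CharZero K] {n : ℕ} {L : Fin (n + 2) → Fin (n + 1) → K}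
    {A : Fin (n + 1) → Fin (n + 1) → K} {c : Fin (n + 1) → K} (hAd : Adapted L A c)
    {Q₀ : Type*} [Field Q₀] [Algebra K Q₀] (G : MvPolynomial (Fin (n + 1)) Q₀) (hG : G ≠ 0)
    {δ : ℕ} (hGδ : G.IsHomogeneous δ) {b : ℕ} (hb : δ + 2 ≤ b) : ∃ R : Polynomial Q₀, R ≠ 0 ∧
      ∀ t : K, R.eval (algebraMap K Q₀ t) = MvPolynomial.eval
        (fun j => algebraMap K Q₀ (pnt A (fun l => cf K (ex b) l * t ^ ex b l) j)) G := by
  classical
  have hchar : CharZero Q₀ := charZero_of_injective_algebraMap (algebraMap K Q₀).injective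
  set M : Fin (n + 1) → Fin (n + 1) → Q₀ := fun l j => algebraMap K Q₀ (A l j) with hM
  set Q := MvPolynomial.bind₁ (lin M) G with hQ
  have hQhom : Q.IsHomogeneous δ := by
    have := hGδ.aeval (lin M) (lin_hom M)
    rw [one_mul] at this
    exact this
  have hQ0 : Q ≠ 0 := by
    intro h0
    apply hG
    refine MvPolynomial.funext fun p => ?_
    rw [map_zero]
    set u : Fin (n + 1) → Q₀ := fun l => algebraMap K Q₀ (c l) *
      ∑ i, algebraMap K Q₀ (L (Fin.castSucc l) i) * p i with hu
    have h1 : pnt M u = p := by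
      funext j
      have h2 : ∀ l, u l * M l j = ∑ i, algebraMap K Q₀ (A l j * (c l * L (Fin.castSucc l) i)) *
          p i := by
        intro l
        have h3 : u l * M l j = algebraMap K Q₀ (c l) * algebraMap K Q₀ (A l j) *
            ∑ i, algebraMap K Q₀ (L (Fin.castSucc l) i) * p i := by
          rw [hu, hM]
          ring
        rw [h3, Finset.mul_sum]
        refine Finset.sum_congr rfl fun i _ => ?_
        rw [map_mul, map_mul]
        ring
      unfold pnt
      rw [Finset.sum_congr rfl fun l _ => h2 l, Finset.sum_comm]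
      have h4 : ∀ i, ∑ l, algebraMap K Q₀ (A l j * (c l * L (Fin.castSucc l) i)) * p i =
          (if j = i then 1 else 0) * p i := by
        intro i
        rw [← Finset.sum_mul, ← map_sum, hAd.inv j i]
        split_ifs <;> simp
      rw [Finset.sum_congr rfl fun i _ => h4 i]
      simp
    have h5 : MvPolynomial.eval u Q = MvPolynomial.eval p G := by
      rw [hQ, eval_bind]
      simp only [lin_eval]
      rw [h1]
    rw [← h5, h0, map_zero]
  refine ⟨onC (ex b) (fun l => algebraMap K Q₀ (cf K (ex b) l)) Q,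
    onC_ne (by omega) (fun i => (map_ne_zero _).2 (cf_ne (ex_inj (by omega)) i)) hQ0 hQhom,
    fun t => ?_⟩
  rw [onC_eval, hQ, eval_bind]
  simp only [lin_eval]
  congr 2
  funext j
  unfold pnt
  rw [map_sum]
  exact Finset.sum_congr rfl fun l _ => by rw [hM, map_mul, map_mul, map_pow]

end gen

variable {K : Type*} [Field K] [NumberField K]

lemma fv_sum_exists (v : HeightOneSpectrum (𝓞 K)) {ι : Type*} (s : Finset ι) (hs : s.Nonempty)
    (f : ι → K) : ∃ l ∈ s, fv v (∑ i ∈ s, f i) ≤ fv v (f l) := by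
  classical
  induction hs using Finset.Nonempty.cons_induction with
  | singleton a => exact ⟨a, Finset.mem_singleton_self a, by rw [Finset.sum_singleton]⟩
  | cons a s ha hs ih =>
    obtain ⟨l, hl, h⟩ := ih
    rw [Finset.sum_cons]
    rcases le_total (fv v (f a)) (fv v (∑ i ∈ s, f i)) with h1 | h1
    · refine ⟨l, Finset.mem_cons_of_mem hl, (fv_na v _ _).trans ?_⟩
      rw [max_eq_right h1]
      exact h
    · refine ⟨a, Finset.mem_cons_self a s, (fv_na v _ _).trans ?_⟩
      rw [max_eq_left h1]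

/-- the height of a point on the curve -/
lemma height_curve {n : ℕ} (A : Fin (n + 1) → Fin (n + 1) → K) (d : Fin (n + 1) → K) (b : ℕ)
    (hb : 1 ≤ b) : ∃ C : ℝ, ∀ t : K,
      logHeight (pnt A fun l => d l * t ^ ex b l) ≤ C + (b ^ n : ℕ) * logHeight₁ t := by
  classical
  set P : Fin (n + 1) → MvPolynomial (Fin 2) K := fun j =>
    ∑ l, MvPolynomial.C (d l * A l j) *
      (MvPolynomial.X 0 ^ ex b l * MvPolynomial.X 1 ^ (b ^ n - ex b l)) with hP
  have hhom : ∀ j, (P j).IsHomogeneous (b ^ n) := by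
    intro j
    refine MvPolynomial.IsHomogeneous.sum _ _ _ fun l _ => ?_
    have h1 : (MvPolynomial.X 0 ^ ex b l * MvPolynomial.X 1 ^ (b ^ n - ex b l) :
        MvPolynomial (Fin 2) K).IsHomogeneous (1 * ex b l + 1 * (b ^ n - ex b l)) :=
      ((MvPolynomial.isHomogeneous_X K 0).pow _).mul ((MvPolynomial.isHomogeneous_X K 1).pow _)
    have h2 : 1 * ex b l + 1 * (b ^ n - ex b l) = b ^ n := by
      have := ex_le hb l
      omega
    rw [h2] at h1
    have h3 := (MvPolynomial.isHomogeneous_C (Fin 2) (d l * A l j)).mul h1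
    rw [zero_add] at h3
    exact h3
  obtain ⟨C, hC⟩ := logHeight_eval_le' hhom
  refine ⟨C, fun t => ?_⟩
  have h1 := hC ![t, 1]
  rw [← logHeight₁_eq_logHeight] at h1
  have h2 : (fun j => MvPolynomial.eval ![t, 1] (P j)) = pnt A fun l => d l * t ^ ex b l := by
    funext j
    rw [hP]
    unfold pnt
    simp only [map_sum, map_mul, MvPolynomial.eval_C, map_pow, MvPolynomial.eval_X,
      Matrix.cons_val_zero, Matrix.cons_val_one, one_pow, mul_one]
    exact Finset.sum_congr rfl fun l _ => by ring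
  rw [h2] at h1
  exact h1

lemma Lam_eq_sum (W : Finset (HeightOneSpectrum (𝓞 K))) (y : K) :
    ∑ p : Pl W, wt p * Real.log (av p y) = Lam W y := by
  rw [sum_pl W fun f => Real.log (f y)]
  rfl

theorem lower (W : Finset (HeightOneSpectrum (𝓞 K)))
    (hs : 3 ≤ Fintype.card (InfinitePlace K) + W.card) {n q : ℕ} (hq : n + 2 ≤ q)
    (a : Fin q → Fin (n + 1) → K)
    (hgp : ∀ I : Finset (Fin q), I.card = n + 1 → LinearIndependent K (fun i : I => a i))
    {Q₀ : Type*} [Field Q₀] [Algebra K Q₀] (G : MvPolynomial (Fin (n + 1)) Q₀) (hG : G ≠ 0)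
    {δ : ℕ} (hGδ : G.IsHomogeneous δ) : ∃ C B0 : ℝ, ∀ B : ℝ, B0 ≤ B → ∃ x : Fin (n + 1) → K,
      x ≠ 0 ∧ (∀ i, ∑ j, a i j * x j ≠ 0) ∧
      MvPolynomial.eval (fun j => algebraMap K Q₀ (x j)) G ≠ 0 ∧ logHeight x ≤ B ∧
      (n + 1 : ℝ) * logHeight x +
        n * (((Fintype.card (InfinitePlace K) + W.card : ℕ) : ℝ) - 2) * Real.log B - C ≤
      ∑ p : Pl W, wt p * ∑ i, Real.log (nm (av p) x / av p (∑ j, a i j * x j)) := by
  classical
  -- coordinates
  set emb : Fin (n + 2) ↪ Fin q := (Fin.castLEEmb hq) with hemb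
  set L : Fin (n + 2) → Fin (n + 1) → K := fun i => a (emb i) with hL
  have hgpL : ∀ I : Finset (Fin (n + 2)), I.card = n + 1 →
      LinearIndependent K (fun i : I => L i) := by
    intro I hI
    have h1 := hgp (I.map emb) (by rw [Finset.card_map, hI])
    have h2 := h1.comp (fun i : I => (⟨emb i.1, Finset.mem_map_of_mem emb i.2⟩ : (I.map emb)))
      (by
        intro i j hij
        exact Subtype.ext (emb.injective (congrArg Subtype.val hij)))
    exact h2
  obtain ⟨A, c, hAd⟩ := exists_adapted L hgpL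
  -- the form
  have hane : ∀ i, ∃ j, a i j ≠ 0 := by
    intro i
    obtain ⟨I, hI1, hI2⟩ := Finset.exists_superset_card_eq (s := {i}) (n := n + 1)
      (by rw [Finset.card_singleton]; omega) (by rw [Fintype.card_fin]; omega)
    have h1 := (hgp I hI2).ne_zero ⟨i, hI1 (Finset.mem_singleton_self i)⟩
    exact Function.ne_iff.1 h1
  set G' : MvPolynomial (Fin (n + 1)) Q₀ := G * ∏ i, lf Q₀ (a i) with hG'
  have hlf0 : ∀ i, lf Q₀ (a i) ≠ 0 := by
    intro i
    obtain ⟨j, hj⟩ := hane i
    refine lf_ne _ (Pi.single j 1) ?_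
    simpa [Pi.single_apply] using hj
  have hG'0 : G' ≠ 0 := mul_ne_zero hG (Finset.prod_ne_zero_iff.2 fun i _ => hlf0 i)
  have hG'hom : G'.IsHomogeneous (δ + q) := by
    have h1 : (∏ i, lf Q₀ (a i)).IsHomogeneous (∑ _i : Fin q, 1) :=
      MvPolynomial.IsHomogeneous.prod _ _ _ fun i _ =>
        MvPolynomial.IsHomogeneous.sum _ _ _ fun _ _ => MvPolynomial.isHomogeneous_C_mul_X _ _
    rw [Finset.sum_const, Finset.card_univ, Fintype.card_fin, smul_eq_mul, mul_one] at h1
    exact hGδ.mul h1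
  set b := δ + q + 2 with hb
  obtain ⟨R, hR0, hR⟩ := exists_R hAd G' hG'0 hG'hom (b := b) le_rfl
  -- the curve
  set e : Fin (n + 1) → ℕ := ex b with he
  have heinj : Function.Injective e := ex_inj (by omega)
  obtain ⟨g, hg⟩ := dvd_PP (F := K) heinj
  obtain ⟨Ch, hCh⟩ := height_curve A (cf K e) b (by omega)
  obtain ⟨p0, c0, hc0, hclose⟩ := close W hs
  obtain ⟨CT, N0, hclose⟩ := hclose (R.natDegree + 1)
  -- constants
  set s : ℝ := ((Fintype.card (InfinitePlace K) + W.card : ℕ) : ℝ) with hsdef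
  have hs3 : (3 : ℝ) ≤ s := by rw [hsdef]; exact_mod_cast hs
  set E : ℝ := ((b ^ n : ℕ) : ℝ) with hE
  have hE0 : 0 ≤ E := Nat.cast_nonneg _
  set c' : ℝ := E * c0 + 1 with hc'
  have hc'0 : 0 < c' := by positivity
  obtain ⟨C5, hC51, hC5⟩ := av_poly_le (av p0) g
  set D : Pl W → ℝ := fun p => 1 + ∑ i, ∑ j, av p (a i j) with hD
  have hD1 : ∀ p, 1 ≤ D p := by
    intro p
    have : 0 ≤ ∑ i, ∑ j, av p (a i j) :=
      Finset.sum_nonneg fun i _ => Finset.sum_nonneg fun j _ => (av p).nonneg _
    rw [hD]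
    linarith
  set CD : ℝ := ∑ p : Pl W, wt p * Real.log (D p) with hCD
  have hCD0 : 0 ≤ CD := Finset.sum_nonneg fun p _ =>
    mul_nonneg (wt_pos p).le (Real.log_nonneg (hD1 p))
  set γ : Fin (n + 1) → K := fun k => (c k)⁻¹ * cf K e k with hγ
  have hγ0 : ∀ k, γ k ≠ 0 := fun k => mul_ne_zero (inv_ne_zero (hAd.c_ne k)) (cf_ne heinj k)
  set bb : Fin (n + 1) × Fin (n + 1) → K := fun l => cf K e l.1 * A l.1 l.2 with hbb
  set Cb : ℝ := ∑ l, logHeight₁ (bb l) with hCb
  set κ : ℝ := av p0 (γ 0) / D p0 with hκ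
  have hκ0 : 0 < κ := div_pos ((av p0).pos_iff.2 (hγ0 0)) (by linarith [hD1 p0])
  obtain ⟨Cf, hCf⟩ : ∃ Cf : ℝ, Cf = (∑ k, (Cb + Lam W (γ k))) + CD -
    wt p0 * (Real.log κ - Real.log C5) + n * CT + q * CD + n * (s - 2) * Real.log (4 * c') :=
    ⟨_, rfl⟩
  refine ⟨Cf, max (2 * Ch) (max (4 * c') (4 * c' * (N0 + 1 + Real.exp CT))), fun B hB => ?_⟩
  have hB1 : 2 * Ch ≤ B := (le_max_left _ _).trans hB
  have hB2 : 4 * c' ≤ B := ((le_max_left _ _).trans (le_max_right _ _)).trans hB
  have hB3 : 4 * c' * (N0 + 1 + Real.exp CT) ≤ B :=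
    ((le_max_right _ _).trans (le_max_right _ _)).trans hB
  have hB0 : 0 < B := by linarith
  set N := ⌊B / (2 * c')⌋₊ with hN
  have hNle : (N : ℝ) ≤ B / (2 * c') := Nat.floor_le (by positivity)
  have hNge : B / (4 * c') ≤ N := by
    have h1 : B / (2 * c') < N + 1 := Nat.lt_floor_add_one _
    have h2 : 1 ≤ B / (4 * c') := (one_le_div (by positivity)).2 hB2
    have h3 : B / (2 * c') = B / (4 * c') + B / (4 * c') := by field_simp; ring
    linarith
  have hNbig : (N0 : ℝ) + 1 + Real.exp CT ≤ N := by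
    refine le_trans ?_ hNge
    rw [le_div_iff₀ (by positivity)]
    linarith
  have hexp := Real.exp_pos CT
  have hN0' : N0 ≤ N := by
    have : (N0 : ℝ) ≤ N := by linarith
    exact_mod_cast this
  have hNpos : (0 : ℝ) < N := by
    have : (0 : ℝ) ≤ N0 := Nat.cast_nonneg _
    linarith
  have hlogN : Real.log B - Real.log (4 * c') ≤ Real.log N := by
    rw [← Real.log_div hB0.ne' (by positivity)]
    exact Real.log_le_log (by positivity) hNge
  have hCTN : CT ≤ Real.log N := by
    rw [Real.le_log_iff_exp_le hNpos]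
    have : (0 : ℝ) ≤ N0 := Nat.cast_nonneg _
    linarith
  have hlogN0 : 0 ≤ Real.log N := Real.log_nonneg (by
    have : (0 : ℝ) ≤ N0 := Nat.cast_nonneg _
    linarith)
  -- the point
  obtain ⟨U, hU, hU2⟩ := hclose N hN0'
  obtain ⟨t, htU, htR⟩ : ∃ t ∈ U, R.eval (algebraMap K Q₀ t) ≠ 0 := by
    by_contra hcon
    push Not at hcon
    have h1 : U.image (algebraMap K Q₀) ⊆ R.roots.toFinset := by
      intro y hy
      obtain ⟨t, ht, rfl⟩ := Finset.mem_image.1 hy
      rw [Multiset.mem_toFinset, Polynomial.mem_roots hR0]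
      exact hcon t ht
    have h2 := Finset.card_le_card h1
    rw [Finset.card_image_of_injective _ (algebraMap K Q₀).injective] at h2
    have h3 := (Multiset.toFinset_card_le R.roots).trans (Polynomial.card_roots' R)
    omega
  obtain ⟨ht0, ht1, htW, hth, htc⟩ := hU2 t htU
  set z : Fin (n + 1) → K := fun l => cf K e l * t ^ e l with hz
  set x := pnt A z with hx
  have hev : MvPolynomial.eval (fun j => algebraMap K Q₀ (x j)) G' ≠ 0 := by
    rw [hR t] at htR
    exact htR
  rw [hG', map_mul, map_prod] at hev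
  have hGx := left_ne_zero_of_mul hev
  have hax : ∀ i, ∑ j, a i j * x j ≠ 0 := by
    intro i h0
    have h1 := Finset.prod_ne_zero_iff.1 (right_ne_zero_of_mul hev) i (Finset.mem_univ i)
    apply h1
    rw [lf_eval, h0, map_zero]
  have hx0 : x ≠ 0 := by
    intro h0
    apply hax ⟨0, by omega⟩
    rw [h0]
    simp
  have hhx : logHeight x ≤ B := by
    have h1 : logHeight x ≤ Ch + E * logHeight₁ t := hCh t
    have h2 : E * logHeight₁ t ≤ E * (c0 * N) := mul_le_mul_of_nonneg_left hth hE0
    have h3 : E * (c0 * N) ≤ c' * N := by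
      rw [hc']; nlinarith
    have h4 : c' * N ≤ B / 2 := by
      calc c' * N ≤ c' * (B / (2 * c')) := mul_le_mul_of_nonneg_left hNle hc'0.le
        _ = B / 2 := by field_simp
    linarith
  refine ⟨x, hx0, hax, hGx, hhx, ?_⟩
  -- the local terms
  have hnm : ∀ p : Pl W, 0 < nm (av p) x := fun p => nm_pos _ hx0
  have hava : ∀ (p : Pl W) i, 0 < av p (∑ j, a i j * x j) := fun p i => (av p).pos_iff.2 (hax i)
  have hle : ∀ (p : Pl W) i, av p (∑ j, a i j * x j) ≤ D p * nm (av p) x := by
    intro p i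
    refine (av_form_le (av p) (a i) x).trans (mul_le_mul_of_nonneg_right ?_ (hnm p).le)
    have h1 : ∑ j, av p (a i j) ≤ ∑ i, ∑ j, av p (a i j) :=
      Finset.single_le_sum (f := fun i => ∑ j, av p (a i j))
        (fun i _ => Finset.sum_nonneg fun j _ => (av p).nonneg _) (Finset.mem_univ i)
    rw [hD]
    linarith
  have hlog : ∀ (p : Pl W) i, Real.log (nm (av p) x / av p (∑ j, a i j * x j)) =
      Real.log (nm (av p) x) - Real.log (av p (∑ j, a i j * x j)) := fun p i =>
    Real.log_div (hnm p).ne' (hava p i).ne'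
  have hlow : ∀ (p : Pl W) i, -Real.log (D p) ≤
      Real.log (nm (av p) x / av p (∑ j, a i j * x j)) := by
    intro p i
    rw [hlog]
    have h1 := Real.log_le_log (hava p i) (hle p i)
    rw [Real.log_mul (by linarith [hD1 p]) (hnm p).ne'] at h1
    linarith
  set F : Fin q → ℝ := fun i => ∑ p : Pl W, wt p *
    Real.log (nm (av p) x / av p (∑ j, a i j * x j)) with hF
  have htotal : ∑ p : Pl W, wt p * ∑ i, Real.log (nm (av p) x / av p (∑ j, a i j * x j)) =
      ∑ i, F i := by
    rw [hF, Finset.sum_comm]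
    exact Finset.sum_congr rfl fun p _ => Finset.mul_sum _ _ _
  rw [htotal]
  have hFlow : ∀ i, -CD ≤ F i := by
    intro i
    rw [hF, hCD, ← Finset.sum_neg_distrib]
    refine Finset.sum_le_sum fun p _ => ?_
    rw [← mul_neg]
    exact mul_le_mul_of_nonneg_left (hlow p i) (wt_pos p).le
  -- the first n + 1 forms
  have hval : ∀ k : Fin (n + 1), ∑ j, a (emb (Fin.castSucc k)) j * x j = γ k * t ^ e k := by
    intro k
    have := hAd.castSucc z k
    change ∑ j, a (emb (Fin.castSucc k)) j * x j = _ at this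
    rw [this, hz, hγ]
    ring
  have hLamt : Lam W t = 0 := Lam_eq_zero W ht0 htW
  have hheight : logHeight x ≤ ∑ p : Pl W, wt p * Real.log (nm (av p) x) + Cb := by
    rw [sum_pl W fun f => Real.log (nm f x)]
    refine logHeight_le_sum W bb hx0 fun v hv j => ?_
    obtain ⟨l, -, hl⟩ := fv_sum_exists v Finset.univ Finset.univ_nonempty fun l => z l * A l j
    refine ⟨(l, j), hl.trans (le_of_eq ?_)⟩
    rw [hz, hbb]
    change fv v (cf K e l * t ^ e l * A l j) = fv v (cf K e l * A l j)
    rw [map_mul, map_mul, map_pow, htW v hv, one_pow, mul_one, map_mul]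
  have hfirst : ∀ k : Fin (n + 1), logHeight x - (Cb + Lam W (γ k)) ≤
      F (emb (Fin.castSucc k)) := by
    intro k
    have h1 : F (emb (Fin.castSucc k)) = ∑ p : Pl W, wt p * Real.log (nm (av p) x) -
        Lam W (∑ j, a (emb (Fin.castSucc k)) j * x j) := by
      rw [← Lam_eq_sum, ← Finset.sum_sub_distrib]
      exact Finset.sum_congr rfl fun p _ => by rw [hlog, mul_sub]
    rw [h1, hval, Lam_mul W (hγ0 k) (pow_ne_zero _ ht0), Lam_pow, hLamt, mul_zero, add_zero]
    linarith
  -- the last form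
  have hlast : n * ((s - 2) * Real.log N - CT) + wt p0 * (Real.log κ - Real.log C5) - CD ≤
      F (emb (Fin.last _)) := by
    have hval2 : ∑ j, a (emb (Fin.last _)) j * x j = (t - 1) ^ n * g.eval t := by
      have h1 := hAd.sum_last z
      change ∑ j, a (emb (Fin.last _)) j * x j = _ at h1
      rw [h1, ← PP_eval e t, hg]
      simp
    have ht1' : t - 1 ≠ 0 := sub_ne_zero.2 ht1
    have hpos1 : 0 < av p0 (t - 1) := (av p0).pos_iff.2 ht1'
    have hlog1 : wt p0 * Real.log (av p0 (t - 1)) ≤ 0 := by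
      have h1 : Real.log N ≤ (s - 2) * Real.log N := by nlinarith
      linarith
    have hle1 : av p0 (t - 1) ≤ 1 := by
      have h1 : Real.log (av p0 (t - 1)) ≤ 0 := by
        by_contra hc
        push Not at hc
        have := mul_pos (wt_pos p0) hc
        linarith
      rwa [Real.log_nonpos_iff hpos1.le] at h1
    have hle2 : av p0 t ≤ 2 := by
      have h1 := (av p0).add_le (t - 1) 1
      rw [sub_add_cancel, map_one] at h1
      linarith
    have hg0 : g.eval t ≠ 0 := by
      intro h0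
      apply hax (emb (Fin.last _))
      rw [hval2, h0, mul_zero]
    have hgpos : 0 < av p0 (g.eval t) := (av p0).pos_iff.2 hg0
    have hloga : Real.log (av p0 (∑ j, a (emb (Fin.last _)) j * x j)) ≤
        n * Real.log (av p0 (t - 1)) + Real.log C5 := by
      rw [hval2, map_mul, map_pow, Real.log_mul (pow_pos hpos1 _).ne' hgpos.ne', Real.log_pow]
      have := Real.log_le_log hgpos (hC5 t hle2)
      linarith
    have hnm0 : Real.log κ ≤ Real.log (nm (av p0) x) := by
      refine Real.log_le_log hκ0 ?_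
      rw [hκ, div_le_iff₀ (by linarith [hD1 p0])]
      have h1 := hle p0 (emb (Fin.castSucc 0))
      rw [hval 0] at h1
      have h2 : e 0 = 0 := rfl
      rw [h2, pow_zero, mul_one] at h1
      linarith
    have hsingle : wt p0 * (Real.log (nm (av p0) x / av p0 (∑ j, a (emb (Fin.last _)) j * x j)) +
        Real.log (D p0)) ≤ F (emb (Fin.last _)) + CD := by
      rw [hF, hCD, ← Finset.sum_add_distrib]
      have h1 : ∀ p : Pl W, wt p * Real.log (nm (av p) x /
          av p (∑ j, a (emb (Fin.last _)) j * x j)) + wt p * Real.log (D p) =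
          wt p * (Real.log (nm (av p) x / av p (∑ j, a (emb (Fin.last _)) j * x j)) +
            Real.log (D p)) := fun p => by ring
      rw [Finset.sum_congr rfl fun p _ => h1 p]
      exact Finset.single_le_sum (f := fun p : Pl W => wt p *
        (Real.log (nm (av p) x / av p (∑ j, a (emb (Fin.last _)) j * x j)) + Real.log (D p)))
        (fun p _ => mul_nonneg (wt_pos p).le (by have := hlow p (emb (Fin.last _)); linarith))
        (Finset.mem_univ p0)
    have hw := wt_pos p0
    have h6 : Real.log κ - Real.log C5 - n * Real.log (av p0 (t - 1)) ≤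
        Real.log (nm (av p0) x / av p0 (∑ j, a (emb (Fin.last _)) j * x j)) +
          Real.log (D p0) := by
      rw [hlog]
      have := Real.log_nonneg (hD1 p0)
      linarith
    have h7 := mul_le_mul_of_nonneg_left h6 hw.le
    have h8 : wt p0 * (Real.log κ - Real.log C5 - n * Real.log (av p0 (t - 1))) =
        wt p0 * (Real.log κ - Real.log C5) + n * -(wt p0 * Real.log (av p0 (t - 1))) := by ring
    rw [h8] at h7
    have h9 : (n : ℝ) * ((s - 2) * Real.log N - CT) ≤
        n * -(wt p0 * Real.log (av p0 (t - 1))) :=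
      mul_le_mul_of_nonneg_left (by linarith) (Nat.cast_nonneg _)
    linarith
  -- sum up
  have hsum : ∑ i : Fin (n + 2), F (emb i) - q * CD ≤ ∑ i, F i := by
    have h1 : ∑ i : Fin (n + 2), (F (emb i) + CD) ≤ ∑ i, (F i + CD) := by
      rw [← Finset.sum_map Finset.univ emb fun i => F i + CD]
      exact Finset.sum_le_sum_of_subset_of_nonneg (Finset.subset_univ _)
        fun i _ _ => by have := hFlow i; linarith
    rw [Finset.sum_add_distrib, Finset.sum_add_distrib, Finset.sum_const, Finset.sum_const,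
      Finset.card_univ, Finset.card_univ, Fintype.card_fin, Fintype.card_fin, nsmul_eq_mul,
      nsmul_eq_mul] at h1
    have h2 : 0 ≤ ((n + 2 : ℕ) : ℝ) * CD := by positivity
    linarith
  refine le_trans ?_ hsum
  rw [Fin.sum_univ_castSucc]
  have h1 : ∑ k : Fin (n + 1), (logHeight x - (Cb + Lam W (γ k))) ≤
      ∑ k : Fin (n + 1), F (emb (Fin.castSucc k)) := Finset.sum_le_sum fun k _ => hfirst k
  rw [Finset.sum_sub_distrib, Finset.sum_const, Finset.card_univ, Fintype.card_fin,
    nsmul_eq_mul] at h1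
  push_cast at h1
  have h2 : (n : ℝ) * (s - 2) * (Real.log B - Real.log (4 * c')) ≤ n * (s - 2) * Real.log N :=
    mul_le_mul_of_nonneg_left hlogN (mul_nonneg (Nat.cast_nonneg _) (by linarith))
  have h3 : (n : ℝ) * ((s - 2) * Real.log N - CT) = n * (s - 2) * Real.log N - n * CT := by ring
  rw [h3] at hlast
  rw [hCf]
  linarith

end Pool.Agent.N698.TP
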